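import Pool.Agent.H565R2.LO2.Dich

set_option autoImplicit false

/-!
Inflations of structures and the classes closed under them.
-/

namespace Pool.Agent.K7.H41.TV

open FirstOrder Set Topology MeasureTheory Pool.Agent.H565R2.FO2
open Pool.Agent.H565R2.LO2 (PerfK perfK_of_inv iso_symm)

variable {L : FirstOrder.Language.{0, 0}}

/-- the pair `(u, w)` satisfies in `J` the same atomic formulas as the pair `(a, b)` in `I` -/
def PE (J I : Interp L ℕ) (u w a b : ℕ) : Prop :=
  ∀ (n : ℕ) (R : L.Relations n) (v : Fin n → Bool),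
    J n R (fun k => pick u w (v k)) ↔ I n R (fun k => pick a b (v k))

/-- `lt` is a strict linear order on the set `F` -/
structure Chain (F : ℕ → Prop) (lt : ℕ → ℕ → Prop) : Prop where
  irr : ∀ u, F u → ¬ lt u u
  tr : ∀ u v w, F u → F v → F w → lt u v → lt v w → lt u w
  tot : ∀ u w, F u → F w → u ≠ w → lt u w ∨ lt w u

/-- `J` arises from `I` by omitting points and by substituting chains for points -/
structure Infl (J I : Interp L ℕ) (π : ℕ → ℕ) : Prop where
  same : ∀ u, PE J I u u (π u) (π u)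
  across : ∀ u w, π u ≠ π w → PE J I u w (π u) (π w)
  inside : ∀ c, ∃ b, b ≠ c ∧ ∃ lt : ℕ → ℕ → Prop, Chain (fun u => π u = c) lt ∧
    ∀ u w, π u = c → π w = c → lt u w → PE J I u w c b

theorem pe_swap {J I : Interp L ℕ} {u w a b : ℕ} (h : PE J I u w a b) : PE J I w u b a := by
  intro n R v
  have h1 := h n R (fun k => !(v k))
  have e1 : (fun k => pick u w (!(v k))) = fun k => pick w u (v k) := by
    funext k; cases v k <;> rfl
  have e2 : (fun k => pick a b (!(v k))) = fun k => pick b a (v k) := by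
    funext k; cases v k <;> rfl
  rw [e1, e2] at h1
  exact h1

/-- the class of models of `Φ` in `C` -/
def K (Φ : F2 L) (C : Set (Code L)) : Set (Code L) := {c | toI c ∈ Md Φ ∧ c ∈ C}

/-- closed under inflations -/
def Closed (C : Set (Code L)) : Prop :=
  ∀ c ∈ C, ∀ (c' : Code L) (π : ℕ → ℕ), Infl (toI c') (toI c) π → c' ∈ C

theorem meas_K [∀ n, Countable (L.Relations n)] (Φ : F2 L) {C : Set (Code L)}
    (hC : MeasurableSet C) : MeasurableSet (K Φ C) := (meas_Md Φ).inter hC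

/-- data realised in the class -/
def AK (Φ : F2 L) (C : Set (Code L)) : Set (Dat L) :=
  {d | ∃ c ∈ K Φ C, ∃ x y, d = dat (toI c) (subs Φ) x y}

theorem ak_al {Φ : F2 L} {C : Set (Code L)} : AK Φ C ⊆ Al Φ := by
  rintro d ⟨c, hc, x, y, rfl⟩
  exact al_dat hc.1 x y

theorem ak_countable [∀ n, Countable (L.Relations n)] {Φ : F2 L} {C : Set (Code L)}
    (hC : MeasurableSet C) (h : ¬ PerfK (K Φ C)) : (AK Φ C).Countable := by
  have := (meas_K Φ hC).standardBorel
  by_contra hc
  apply h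
  refine perfK_of_inv (K := K Φ C) (Y := ↥(K Φ C)) (Z := KI Φ → Bool) (ι := ℕ × ℕ)
    (fun y => y.1) measurable_subtype_coe (fun y => y.2)
    (fun p y => code Φ (dat (toI y.1) (subs Φ) p.1 p.2)) ?_ ?_ ?_
  · intro p
    exact (meas_code Φ p.1 p.2).comp measurable_subtype_coe
  · rintro y y' ⟨g, hg⟩ p
    exact ⟨(g p.1, g p.2), by simp only [dat_iso g hg]⟩
  · intro hc2
    apply hc
    refine Set.MapsTo.countable_of_injOn (f := code Φ) ?_
      (fun d hd d' hd' h => code_inj (ak_al hd) (ak_al hd') h) hc2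
    rintro d ⟨c, hcK, x, y, rfl⟩
    exact mem_iUnion.2 ⟨(x, y), ⟨c, hcK⟩, rfl⟩

open Classical in
/-- The set of data of a model. -/
noncomputable def Dg (Φ : F2 L) (C : Set (Code L)) (c : Code L) : ↥(AK Φ C) → Bool := fun d =>
  decide (∃ x y, dat (toI c) (subs Φ) x y = d)

open Classical in
/-- The set of data seen by an element. -/
noncomputable def L1 (Φ : F2 L) (C : Set (Code L)) (c : Code L) (x : ℕ) : ↥(AK Φ C) → Bool :=
  fun d => decide (∃ y, dat (toI c) (subs Φ) x y = d)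

theorem meas_dat_eqK [∀ n, Countable (L.Relations n)] {Φ : F2 L} {C : Set (Code L)}
    (x y : ℕ) (d : ↥(AK Φ C)) :
    Measurable (fun k : ↥(K Φ C) => dat (toI k.1) (subs Φ) x y = d) := by
  apply measurableSet_setOfPred.1
  have : {k : ↥(K Φ C) | dat (toI k.1) (subs Φ) x y = d} =
      (fun k : ↥(K Φ C) => code Φ (dat (toI k.1) (subs Φ) x y)) ⁻¹' {code Φ d} := by
    ext k
    simp only [mem_ofPred_eq, mem_preimage, mem_singleton_iff]
    exact ⟨fun h => by rw [h], fun h => code_inj (al_dat k.2.1 x y) (ak_al d.2) h⟩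
  rw [this]
  exact ((meas_code Φ x y).comp measurable_subtype_coe) (measurableSet_singleton _)

theorem meas_Dg [∀ n, Countable (L.Relations n)] {Φ : F2 L} {C : Set (Code L)}
    (hA : (AK Φ C).Countable) :
    Measurable (fun k : ↥(K Φ C) => Dg Φ C k.1) := by
  have := hA.to_subtype
  rw [measurable_pi_iff]
  intro d
  apply measurable_to_bool
  have : (fun k : ↥(K Φ C) => Dg Φ C k.1 d) ⁻¹' {true} =
      {k : ↥(K Φ C) | ∃ x y, dat (toI k.1) (subs Φ) x y = d} := by
    ext k; simp [Dg]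
  rw [this]
  apply measurableSet_setOfPred.2
  exact Measurable.exists fun x => Measurable.exists fun y => meas_dat_eqK x y d

theorem meas_L1 [∀ n, Countable (L.Relations n)] {Φ : F2 L} {C : Set (Code L)}
    (hA : (AK Φ C).Countable) (x : ℕ) :
    Measurable (fun k : ↥(K Φ C) => L1 Φ C k.1 x) := by
  have := hA.to_subtype
  rw [measurable_pi_iff]
  intro d
  apply measurable_to_bool
  have : (fun k : ↥(K Φ C) => L1 Φ C k.1 x d) ⁻¹' {true} =
      {k : ↥(K Φ C) | ∃ y, dat (toI k.1) (subs Φ) x y = d} := by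
    ext k; simp [L1]
  rw [this]
  apply measurableSet_setOfPred.2
  exact Measurable.exists fun y => meas_dat_eqK x y d

theorem Dg_iso {c c' : Code L} (h : Iso c c') (Φ : F2 L) (C : Set (Code L)) :
    Dg Φ C c = Dg Φ C c' := by
  obtain ⟨g, hg⟩ := h
  funext d
  unfold Dg
  congr 1
  apply propext
  constructor
  · rintro ⟨x, y, h⟩
    exact ⟨g x, g y, by rw [← dat_iso g hg]; exact h⟩
  · rintro ⟨x, y, h⟩
    refine ⟨g.symm x, g.symm y, ?_⟩
    rw [dat_iso g hg, Equiv.apply_symm_apply, Equiv.apply_symm_apply]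
    exact h

theorem L1_iso {c c' : Code L} (g : ℕ ≃ ℕ)
    (hg : ∀ n (R : L.Relations n) (t : Fin n → ℕ), c ⟨n, R, t⟩ = c' ⟨n, R, fun k => g (t k)⟩)
    (Φ : F2 L) (C : Set (Code L)) (x : ℕ) : L1 Φ C c x = L1 Φ C c' (g x) := by
  funext d
  unfold L1
  congr 1
  apply propext
  constructor
  · rintro ⟨y, h⟩
    exact ⟨g y, by rw [← dat_iso g hg]; exact h⟩
  · rintro ⟨y, h⟩
    refine ⟨g.symm y, ?_⟩
    rw [dat_iso g hg, Equiv.apply_symm_apply]
    exact h

theorem dg_countable [∀ n, Countable (L.Relations n)] {Φ : F2 L} {C : Set (Code L)}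
    (hC : MeasurableSet C) (h : ¬ PerfK (K Φ C)) :
    (Set.range (fun k : ↥(K Φ C) => Dg Φ C k.1)).Countable := by
  have hA := ak_countable hC h
  have := hA.to_subtype
  have := (meas_K Φ hC).standardBorel
  by_contra hc
  apply h
  refine perfK_of_inv (K := K Φ C) (Y := ↥(K Φ C)) (Z := ↥(AK Φ C) → Bool)
    (ι := Unit) (fun y => y.1) measurable_subtype_coe (fun y => y.2)
    (fun _ y => Dg Φ C y.1) ?_ ?_ ?_
  · intro _
    exact meas_Dg hA
  · rintro y y' h x
    exact ⟨(), Dg_iso h Φ C⟩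
  · intro hc2
    apply hc
    refine hc2.mono ?_
    rintro z ⟨k, rfl⟩
    exact mem_iUnion.2 ⟨(), k, rfl⟩

theorem l1_countable [∀ n, Countable (L.Relations n)] {Φ : F2 L} {C : Set (Code L)}
    (hC : MeasurableSet C) (h : ¬ PerfK (K Φ C)) :
    {z : ↥(AK Φ C) → Bool | ∃ c ∈ K Φ C, ∃ x, z = L1 Φ C c x}.Countable := by
  have hA := ak_countable hC h
  have := hA.to_subtype
  have := (meas_K Φ hC).standardBorel
  by_contra hc
  apply h
  refine perfK_of_inv (K := K Φ C) (Y := ↥(K Φ C)) (Z := ↥(AK Φ C) → Bool)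
    (ι := ℕ) (fun y => y.1) measurable_subtype_coe (fun y => y.2)
    (fun x y => L1 Φ C y.1 x) ?_ ?_ ?_
  · intro x
    exact meas_L1 hA x
  · rintro y y' ⟨g, hg⟩ x
    exact ⟨g x, L1_iso g hg Φ C x⟩
  · intro hc2
    apply hc
    refine hc2.mono ?_
    rintro z ⟨c, hc, x, rfl⟩
    exact mem_iUnion.2 ⟨x, ⟨c, hc⟩, rfl⟩

/-! ### Relation symbols of arity at least three -/

theorem perf_of_ternary {Φ : F2 L} {C : Set (Code L)} (hcl : Closed C) {n : ℕ} (hn : 2 < n)
    (R : L.Relations n) {c0 : Code L} (hc0 : c0 ∈ K Φ C) : PerfK (K Φ C) := by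
  classical
  have hpe : ∀ (x : ℕ → Bool) (u w : ℕ), PE (toI (cx c0 x)) (toI c0) u w u w := by
    intro x u w m R' v
    unfold toI cx
    rw [if_pos ⟨u, w, v, rfl⟩]
  refine ⟨cx c0, cx_cont c0, fun x => ⟨cx_mem hc0.1 x, ?_⟩, ?_⟩
  · refine hcl c0 hc0.2 _ id ⟨fun u => hpe x u u, fun u w _ => hpe x u w, fun c => ?_⟩
    refine ⟨c + 1, by omega, fun u w => u < w, ⟨fun u _ => lt_irrefl u,
      fun u v w _ _ _ => lt_trans, fun u w _ _ h => lt_or_gt_of_ne h⟩, fun u w h1 h2 h3 => ?_⟩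
    have h1' : u = c := h1
    have h2' : w = c := h2
    omega
  have key : ∀ x x' : ℕ → Bool, Iso (cx c0 x) (cx c0 x') → ∀ u, x u = true → x' u = true := by
    rintro x x' ⟨g, hg⟩ u hu
    have h1 : In3 (cx c0 x) R (2 * u + 2) := by
      rw [In3_cx c0 x hn R]
      exact ⟨u, by rw [hu]; rfl⟩
    have h2 := In3_iso g hg R _ h1
    rw [In3_cx c0 x' hn R] at h2
    obtain ⟨u', hu'⟩ := h2
    cases hx : x' u'
    · rw [hx] at hu'
      simp only [Bool.toNat_false] at hu'
      omega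
    · rw [hx] at hu'
      simp only [Bool.toNat_true] at hu'
      have : u = u' := by omega
      rw [this]; exact hx
  intro x x' h
  funext u
  rw [Bool.eq_iff_iff]
  exact ⟨key x x' h u, key x' x (iso_symm h) u⟩

end Pool.Agent.K7.H41.TV
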