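import Pool.Agent.K7.H41.TV.Basic

set_option autoImplicit false

/-!
Substituting a chain for an element.
-/

namespace Pool.Agent.K7.H41.TV

open FirstOrder Set Topology MeasureTheory Pool.Agent.H565R2.FO2
open Pool.Agent.H565R2.LO2 (PerfK perfK_of_inv iso_symm DD c0 key key_c0 key_pos key_inj en key_dep
  FB Q Btw Q_mono)

variable {L : FirstOrder.Language.{0, 0}}

/-- two elements of a model with the same data, the pair not being symmetric -/
structure Cf (Φ : F2 L) where
  I : Interp L ℕ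
  hI : I ∈ Md Φ
  a : ℕ
  b : ℕ
  hd : dat I (subs Φ) a a = dat I (subs Φ) b b
  hne : dat I (subs Φ) a b ≠ dat I (subs Φ) b a

theorem dat_not {I : Interp L ℕ} {J : Set (F2 L)} (u w : ℕ) :
    dat I J w u = (dat I J u w).map not := by
  rw [dat_map]; rfl

theorem dat_e {I I' : Interp L ℕ} {J J' : Set (F2 L)} {u w x y : ℕ}
    (h : dat I J u w = dat I' J' x y) : u = w ↔ x = y := by
  have h1 : (dat I J u w).e ↔ (dat I' J' x y).e := by rw [h]
  exact h1

namespace Cf

variable {Φ : F2 L} (C : Cf Φ)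

theorem ab : C.a ≠ C.b := by
  intro h
  have := C.hne
  rw [← h] at this
  exact this rfl

/-- projection to the old model -/
def pr (u : ℕ) : ℕ := if u % 2 = 0 then u / 2 else C.a

theorem pr_2 (z : ℕ) : C.pr (2 * z) = z := by
  unfold pr
  rw [if_pos (by omega)]
  omega

theorem pr_odd (z : ℕ) : C.pr (2 * z + 1) = C.a := by
  unfold pr
  rw [if_neg (by omega)]

theorem pr_inj {u w : ℕ} (h : C.pr u = C.pr w) (ha : C.pr u ≠ C.a) : u = w := by
  unfold pr at h ha
  split_ifs at h ha <;> omega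

/-- the order on the block -/
def rb (x : ℕ → Bool) (u w : ℕ) : Prop :=
  u % 2 = 1 ∧ (w % 2 = 0 ∨ key x (en (u / 2)) < key x (en (w / 2)))

open Classical in
/-- data of the extended model -/
noncomputable def dl (x : ℕ → Bool) (u w : ℕ) : Dat L :=
  if u = w then dat C.I (subs Φ) (C.pr u) (C.pr u)
  else if C.pr u = C.a ∧ C.pr w = C.a then
    (if rb x u w then dat C.I (subs Φ) C.a C.b else dat C.I (subs Φ) C.b C.a)
  else dat C.I (subs Φ) (C.pr u) (C.pr w)

theorem rb_asym (x : ℕ → Bool) {u w : ℕ} (h : rb x u w) : ¬ rb x w u := by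
  rintro ⟨h1, h2⟩
  obtain ⟨h3, h4⟩ := h
  rcases h2 with h2 | h2
  · omega
  · rcases h4 with h4 | h4
    · omega
    · exact lt_asymm h2 h4

theorem rb_tot (x : ℕ → Bool) {u w : ℕ} (hne : u ≠ w) (hu : C.pr u = C.a) (hw : C.pr w = C.a) :
    rb x u w ∨ rb x w u := by
  rcases Nat.mod_two_eq_zero_or_one u with h1 | h1
  · rcases Nat.mod_two_eq_zero_or_one w with h2 | h2
    · exfalso
      unfold pr at hu hw
      rw [if_pos h1] at hu
      rw [if_pos h2] at hw
      omega
    · exact Or.inr ⟨h2, Or.inl h1⟩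
  · rcases Nat.mod_two_eq_zero_or_one w with h2 | h2
    · exact Or.inl ⟨h1, Or.inl h2⟩
    · have hne2 : key x (en (u / 2)) ≠ key x (en (w / 2)) := by
        intro h
        have := en.injective (key_inj x h)
        omega
      rcases lt_or_gt_of_ne hne2 with h | h
      · exact Or.inl ⟨h1, Or.inr h⟩
      · exact Or.inr ⟨h2, Or.inr h⟩

theorem rb_trans (x : ℕ → Bool) {u v w : ℕ} (h1 : rb x u v) (h2 : rb x v w) : rb x u w := by
  obtain ⟨a1, a2⟩ := h1
  obtain ⟨b1, b2⟩ := h2
  refine ⟨a1, ?_⟩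
  rcases b2 with b2 | b2
  · exact Or.inl b2
  · rcases a2 with a2 | a2
    · omega
    · exact Or.inr (a2.trans b2)

theorem dl_coh (x : ℕ → Bool) : Coh (C.dl x) := by
  classical
  have hba : dat C.I (subs Φ) C.b C.b = dat C.I (subs Φ) C.a C.a := C.hd.symm
  refine ⟨?_, ?_⟩
  · intro u w σ
    rcases bool_fun_cases σ with h2 | h2 | h2 | h2
    · subst h2
      simp only [pick_false]
      unfold dl
      rw [if_pos rfl]
      split_ifs with h3 h4 h5
      · subst h3; rw [dat_map]; rfl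
      · rw [dat_map, h4.1]; rfl
      · rw [dat_map, h4.1]; exact hba.symm
      · rw [dat_map]; rfl
    · subst h2
      simp only [pick_true]
      unfold dl
      rw [if_pos rfl]
      split_ifs with h3 h4 h5
      · subst h3; rw [dat_map]; rfl
      · rw [dat_map, h4.2]; exact hba.symm
      · rw [dat_map, h4.2]; rfl
      · rw [dat_map]; rfl
    · subst h2
      simp only [id, pick_false, pick_true]
      exact (Dat.map_id _).symm
    · subst h2
      simp only [Bool.not_false, Bool.not_true, pick_false, pick_true]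
      unfold dl
      by_cases h3 : u = w
      · subst h3
        rw [if_pos rfl, dat_map]; rfl
      · rw [if_neg h3, if_neg (Ne.symm h3)]
        by_cases h4 : C.pr u = C.a ∧ C.pr w = C.a
        · rw [if_pos h4, if_pos h4.symm]
          rcases C.rb_tot x h3 h4.1 h4.2 with h5 | h5
          · rw [if_pos h5, if_neg (rb_asym x h5), dat_map]; rfl
          · rw [if_pos h5, if_neg (rb_asym x h5), dat_map]; rfl
        · rw [if_neg h4, if_neg (fun h => h4 h.symm), dat_map]; rfl
  · intro u w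
    unfold dl
    split_ifs with h3 h4 h5
    · exact ⟨fun _ => h3, fun _ => rfl⟩
    · exact ⟨fun h => absurd h C.ab, fun h => absurd h h3⟩
    · exact ⟨fun h => absurd h.symm C.ab, fun h => absurd h h3⟩
    · have : C.pr u ≠ C.pr w := by
        intro h
        by_cases h6 : C.pr u = C.a
        · exact h4 ⟨h6, by rw [← h]; exact h6⟩
        · exact h3 (C.pr_inj h h6)
      exact ⟨fun h => absurd h this, fun h => absurd h h3⟩

/-- the extended model -/
noncomputable def Mo (x : ℕ → Bool) : Interp L ℕ := mkI (C.dl x)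

theorem dl_al (x : ℕ → Bool) (u w : ℕ) : C.dl x u w ∈ Al Φ := by
  unfold dl
  split_ifs
  · exact al_dat C.hI _ _
  · exact al_dat C.hI _ _
  · exact al_dat C.hI _ _
  · exact al_dat C.hI _ _

theorem dl_see (x : ℕ → Bool) (u z : ℕ) : ∃ w, C.dl x u w = dat C.I (subs Φ) (C.pr u) z ∧
    C.dl x w u = dat C.I (subs Φ) z (C.pr u) := by
  by_cases h : z = C.pr u
  · refine ⟨u, ?_, ?_⟩
    · unfold dl; rw [if_pos rfl, h]
    · unfold dl; rw [if_pos rfl, h]
  · have h1 : u ≠ 2 * z := by
      rintro rfl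
      exact h (C.pr_2 z).symm
    have h2 : ¬ (C.pr u = C.a ∧ C.pr (2 * z) = C.a) := by
      rintro ⟨h3, h4⟩
      rw [C.pr_2] at h4
      exact h (by rw [h3, h4])
    refine ⟨2 * z, ?_, ?_⟩
    · unfold dl; rw [if_neg h1, if_neg h2, C.pr_2]
    · unfold dl; rw [if_neg (Ne.symm h1), if_neg (fun h => h2 h.symm), C.pr_2]

theorem Mo_both (x : ℕ → Bool) :
    lab (C.Mo x) (subs Φ) = (fun u => (C.dl x u u).l false) ∧ C.Mo x ∈ Md Φ := by
  have hdiag : ∀ u, C.dl x u u = dat C.I (subs Φ) (C.pr u) (C.pr u) := by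
    intro u; unfold dl; rw [if_pos rfl]
  have hlb : ∀ u, (C.dl x u u).l false = lab C.I (subs Φ) (C.pr u) := by
    intro u
    rw [hdiag]; rfl
  refine criterion Φ (C.Mo x) (fun u => (C.dl x u u).l false) ?_ ?_
  · intro u w
    rw [Mo, mkd_mkI (C.dl_coh x)]
    exact C.dl_al x u w
  · intro u c ψ h
    rw [Mo]
    simp only [mkd_mkI (C.dl_coh x)]
    rw [hlb] at h
    obtain ⟨hψ, h⟩ := h
    have hs : subs ψ ⊆ subs Φ := subs_trans hψ
    cases c
    · obtain ⟨z, hz⟩ := h
      obtain ⟨w, -, h2⟩ := C.dl_see x u z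
      refine ⟨w, ?_⟩
      simp only [cond_false]
      rw [h2, ev_dat _ _ _ hs]
      exact hz
    · obtain ⟨z, hz⟩ := h
      obtain ⟨w, h2, -⟩ := C.dl_see x u z
      refine ⟨w, ?_⟩
      simp only [cond_true]
      rw [h2, ev_dat _ _ _ hs]
      exact hz

theorem Mo_dat (x : ℕ → Bool) (u w : ℕ) : dat (C.Mo x) (subs Φ) u w = C.dl x u w := by
  unfold dat
  rw [(C.Mo_both x).1]
  exact mkd_mkI (C.dl_coh x) u w

theorem pe_of_dat {J I : Interp L ℕ} {S : Set (F2 L)} {u w a b : ℕ}
    (h : dat J S u w = dat I S a b) : PE J I u w a b := by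
  intro n R v
  have h1 : (dat J S u w).a n R v ↔ (dat I S a b).a n R v := by rw [h]
  exact h1

theorem Mo_infl (x : ℕ → Bool) : Infl (C.Mo x) C.I C.pr := by
  refine ⟨fun u => ?_, fun u w h => ?_, fun c => ?_⟩
  · apply pe_of_dat (S := subs Φ)
    rw [C.Mo_dat]
    unfold dl; rw [if_pos rfl]
  · apply pe_of_dat (S := subs Φ)
    rw [C.Mo_dat]
    unfold dl
    rw [if_neg (fun h' => h (by rw [h'])), if_neg (fun h' => h (by rw [h'.1, h'.2]))]
  · by_cases hc : c = C.a
    · subst hc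
      refine ⟨C.b, C.ab.symm, rb x, ⟨fun u _ h => rb_asym x h h,
        fun u v w _ _ _ => rb_trans x, fun u w hu hw h => C.rb_tot x h hu hw⟩,
        fun u w hu hw h => ?_⟩
      apply pe_of_dat (S := subs Φ)
      rw [C.Mo_dat]
      unfold dl
      rw [if_neg, if_pos ⟨hu, hw⟩, if_pos h]
      rintro rfl
      exact rb_asym x h h
    · refine ⟨c + 1, by omega, fun u w => u < w, ⟨fun u _ => lt_irrefl u,
        fun u v w _ _ _ => lt_trans, fun u w _ _ h => lt_or_gt_of_ne h⟩, fun u w hu hw h => ?_⟩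
      exfalso
      have := C.pr_inj (hu.trans hw.symm) (by rw [hu]; exact hc)
      omega

/-- index of the least new element -/
noncomputable def p0 : ℕ := 2 * en.symm c0 + 1

/-- the relation of the data of the first and the last element of the block -/
def rr (x : ℕ → Bool) (u w : ℕ) : Prop := C.dl x u w = dat C.I (subs Φ) C.a C.b

theorem rr_irr (x : ℕ → Bool) (u : ℕ) : ¬ C.rr x u u := by
  intro h
  unfold rr dl at h
  rw [if_pos rfl] at h
  exact C.ab ((dat_e h).1 rfl)

theorem rr_block (x : ℕ → Bool) {u w : ℕ} (hu : C.pr u = C.a) (hw : C.pr w = C.a) :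
    C.rr x u w ↔ u ≠ w ∧ rb x u w := by
  constructor
  · intro h
    refine ⟨fun h' => C.rr_irr x u (by rw [← h'] at h; exact h), ?_⟩
    by_contra hn
    have hne : u ≠ w := fun h' => C.rr_irr x u (by rw [← h'] at h; exact h)
    unfold rr dl at h
    rw [if_neg hne, if_pos ⟨hu, hw⟩, if_neg hn] at h
    exact C.hne h.symm
  · rintro ⟨h1, h2⟩
    unfold rr dl
    rw [if_neg h1, if_pos ⟨hu, hw⟩, if_pos h2]

theorem rr_out (x : ℕ → Bool) {u z w : ℕ} (hu : C.pr u = C.a) (hw : C.pr w = C.a)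
    (hz : C.pr z ≠ C.a) (h1 : C.rr x u z) (h2 : C.rr x z w) : False := by
  have n1 : u ≠ z := by rintro rfl; exact hz hu
  have n2 : z ≠ w := by rintro rfl; exact hz hw
  unfold rr dl at h1 h2
  rw [if_neg n1, if_neg (fun h => hz h.2), hu] at h1
  rw [if_neg n2, if_neg (fun h => hz h.1), hw] at h2
  have h3 : dat C.I (subs Φ) (C.pr z) C.a = dat C.I (subs Φ) C.b C.a := by
    rw [dat_not C.a (C.pr z), h1, ← dat_not]
  rw [h2] at h3
  exact C.hne h3

theorem itv (x : ℕ → Bool) (z : ℕ) :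
    (C.rr x p0 z ∧ C.rr x z (2 * C.a)) ↔ ∃ i, z = 2 * i + 1 ∧ en i ≠ c0 := by
  have hp : C.pr p0 = C.a := C.pr_odd _
  have ha2 : C.pr (2 * C.a) = C.a := C.pr_2 _
  constructor
  · rintro ⟨h1, h2⟩
    have hz : C.pr z = C.a := by
      by_contra hz
      exact C.rr_out x hp ha2 hz h1 h2
    obtain ⟨n1, h1'⟩ := (C.rr_block x hp hz).1 h1
    obtain ⟨n2, h2'⟩ := (C.rr_block x hz ha2).1 h2
    have hodd : z % 2 = 1 := h2'.1
    refine ⟨z / 2, by omega, ?_⟩
    intro he
    apply n1
    have : z / 2 = en.symm c0 := by rw [← he, Equiv.symm_apply_apply]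
    unfold p0
    omega
  · rintro ⟨i, rfl, hi⟩
    have hz : C.pr (2 * i + 1) = C.a := C.pr_odd i
    have n1 : p0 ≠ 2 * i + 1 := by
      intro h
      unfold p0 at h
      have : en.symm c0 = i := by omega
      apply hi
      rw [← this, Equiv.apply_symm_apply]
    refine ⟨(C.rr_block x hp hz).2 ⟨n1, by unfold p0; omega, Or.inr ?_⟩,
      (C.rr_block x hz ha2).2 ⟨by omega, by omega, Or.inl (by omega)⟩⟩
    have e1 : p0 / 2 = en.symm c0 := by unfold p0; omega
    have e2 : (2 * i + 1) / 2 = i := by omega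
    rw [e1, e2, Equiv.apply_symm_apply, key_c0]
    exact (key_pos x hi).1

theorem odd_rr (x : ℕ → Bool) (i j : ℕ) :
    C.rr x (2 * i + 1) (2 * j + 1) ↔ key x (en i) < key x (en j) := by
  rw [C.rr_block x (C.pr_odd i) (C.pr_odd j)]
  constructor
  · rintro ⟨-, -, h⟩
    rcases h with h | h
    · omega
    · rwa [show (2 * i + 1) / 2 = i by omega, show (2 * j + 1) / 2 = j by omega] at h
  · intro h
    refine ⟨?_, by omega, Or.inr ?_⟩
    · intro h'
      have : i = j := by omega
      subst this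
      exact lt_irrefl _ h
    · rwa [show (2 * i + 1) / 2 = i by omega, show (2 * j + 1) / 2 = j by omega]

theorem fb_iff' (x : ℕ → Bool) (i j : ℕ) :
    (∃ t : Finset ℕ, ∀ z, Btw (C.rr x) (2 * i + 1) z (2 * j + 1) → z ∈ t) ↔
      FB x (en i) (en j) := by
  have hz : ∀ z, Btw (C.rr x) (2 * i + 1) z (2 * j + 1) → ∃ k, z = 2 * k + 1 := by
    intro z h
    have aux : ∀ i j, C.rr x (2 * i + 1) z → C.rr x z (2 * j + 1) → ∃ k, z = 2 * k + 1 := by
      intro i j h1 h2
      have hz : C.pr z = C.a := by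
        by_contra hz
        exact C.rr_out x (C.pr_odd i) (C.pr_odd j) hz h1 h2
      have h3 := ((C.rr_block x hz (C.pr_odd j)).1 h2).2.1
      exact ⟨z / 2, by omega⟩
    rcases h with ⟨h1, h2⟩ | ⟨h1, h2⟩
    · exact aux i j h1 h2
    · exact aux j i h1 h2
  have hB : ∀ k, Btw (C.rr x) (2 * i + 1) (2 * k + 1) (2 * j + 1) ↔
      ((key x (en i) < key x (en k) ∧ key x (en k) < key x (en j)) ∨
      (key x (en j) < key x (en k) ∧ key x (en k) < key x (en i))) := by
    intro k
    unfold Pool.Agent.H565R2.LO2.Btw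
    simp only [C.odd_rr]
  constructor
  · rintro ⟨t, ht⟩
    unfold FB
    refine (t.finite_toSet.image (fun z => en (z / 2))).subset ?_
    intro d hd
    refine ⟨2 * en.symm d + 1, ?_, ?_⟩
    · apply ht
      rw [hB, Equiv.apply_symm_apply]
      exact hd
    · simp only
      rw [show (2 * en.symm d + 1) / 2 = en.symm d by omega, Equiv.apply_symm_apply]
  · intro h
    unfold FB at h
    have h2 := h.image (fun d => 2 * en.symm d + 1)
    refine ⟨h2.toFinset, fun z hzz => ?_⟩
    obtain ⟨k, rfl⟩ := hz z hzz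
    rw [Set.Finite.mem_toFinset]
    refine ⟨en k, (hB k).1 hzz, ?_⟩
    simp only [Equiv.symm_apply_apply]

theorem Q_iff (x : ℕ → Bool) (n : ℕ) :
    Q (C.rr x) (p0, 2 * C.a) n ↔ x n = true := by
  rw [← Pool.Agent.H565R2.LO2.decode x n]
  unfold Q
  simp only [C.itv]
  constructor
  · rintro ⟨y, ⟨i, rfl, hi⟩, s, hs, hw⟩
    refine ⟨en i, hi, s.image (fun z => en (z / 2)), ?_, ?_⟩
    · rw [Finset.card_image_of_injOn, hs]
      intro u hu w hw' h
      obtain ⟨⟨k, rfl, -⟩, -⟩ := (hw u).1 hu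
      obtain ⟨⟨l, rfl, -⟩, -⟩ := (hw w).1 hw'
      have := en.injective h
      omega
    · intro d
      rw [Finset.mem_image]
      constructor
      · rintro ⟨z, hz, rfl⟩
        obtain ⟨⟨k, rfl, hk⟩, h2⟩ := (hw z).1 hz
        rw [show (2 * k + 1) / 2 = k by omega]
        exact ⟨hk, (C.fb_iff' x i k).1 h2⟩
      · rintro ⟨hd, h2⟩
        refine ⟨2 * en.symm d + 1, ?_, ?_⟩
        · rw [hw]
          refine ⟨⟨en.symm d, rfl, by rw [Equiv.apply_symm_apply]; exact hd⟩, ?_⟩
          rw [C.fb_iff' x i _, Equiv.apply_symm_apply]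
          exact h2
        · rw [show (2 * en.symm d + 1) / 2 = en.symm d by omega, Equiv.apply_symm_apply]
  · rintro ⟨y, hy, s, hs, hw⟩
    refine ⟨2 * en.symm y + 1, ⟨en.symm y, rfl, by rw [Equiv.apply_symm_apply]; exact hy⟩,
      s.image (fun d => 2 * en.symm d + 1), ?_, ?_⟩
    · rw [Finset.card_image_of_injective, hs]
      intro u w h
      simp only at h
      exact en.symm.injective (by omega)
    · intro z
      rw [Finset.mem_image]
      constructor
      · rintro ⟨d, hd, rfl⟩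
        obtain ⟨h1, h2⟩ := (hw d).1 hd
        refine ⟨⟨en.symm d, rfl, by rw [Equiv.apply_symm_apply]; exact h1⟩, ?_⟩
        rw [C.fb_iff' x _ _, Equiv.apply_symm_apply, Equiv.apply_symm_apply]
        exact h2
      · rintro ⟨⟨k, rfl, hk⟩, h2⟩
        refine ⟨en k, ?_, by rw [Equiv.symm_apply_apply]⟩
        rw [hw]
        refine ⟨hk, ?_⟩
        rw [C.fb_iff' x _ _, Equiv.apply_symm_apply] at h2
        exact h2

theorem dl_dep (u w : ℕ) : ∃ (F : Bool → Bool → Dat L) (i j : ℕ), ∀ x, C.dl x u w = F (x i) (x j) := by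
  classical
  obtain ⟨F1, n1, h1⟩ := key_dep (en (u / 2))
  obtain ⟨F2, n2, h2⟩ := key_dep (en (w / 2))
  refine ⟨fun β γ => if u = w then dat C.I (subs Φ) (C.pr u) (C.pr u)
    else if C.pr u = C.a ∧ C.pr w = C.a then
      (if (u % 2 = 1 ∧ (w % 2 = 0 ∨ F1 β < F2 γ)) then dat C.I (subs Φ) C.a C.b
        else dat C.I (subs Φ) C.b C.a)
    else dat C.I (subs Φ) (C.pr u) (C.pr w), n1, n2, fun x => ?_⟩
  unfold dl rb
  simp only [h1, h2]

end Cf

/-- A family of data depending continuously on a point of the Cantor space gives a continuous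
family of structures. -/
theorem cont_mkI {δ : (ℕ → Bool) → ℕ → ℕ → Dat L} (hc : ∀ x, Coh (δ x))
    (hdep : ∀ u w, ∃ (F : Bool → Bool → Dat L) (i j : ℕ), ∀ x, δ x u w = F (x i) (x j)) :
    Continuous (fun x : ℕ → Bool => ofI (mkI (δ x))) := by
  classical
  rw [continuous_pi_iff]
  rintro ⟨n, R, t⟩
  by_cases hrep : ∃ (u w : ℕ) (v : Fin n → Bool), t = fun k => pick u w (v k)
  · obtain ⟨u, w, v, rfl⟩ := hrep
    obtain ⟨F, i, j, hF⟩ := hdep u w
    have : (fun x : ℕ → Bool => ofI (mkI (δ x)) ⟨n, R, fun k => pick u w (v k)⟩) =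
        (fun β : Bool × Bool => decide ((F β.1 β.2).a n R v)) ∘ fun x => (x i, x j) := by
      funext x
      simp only [ofI, Function.comp, decide_eq_decide]
      rw [mkI_iff (hc _), hF]
    rw [this]
    exact (continuous_of_discreteTopology).comp
      ((continuous_apply i).prodMk (continuous_apply j))
  · have : (fun x : ℕ → Bool => ofI (mkI (δ x)) ⟨n, R, t⟩) = fun _ => false := by
      funext x
      simp only [ofI, decide_eq_false_iff_not]
      rintro ⟨u, w, v, ht, -⟩
      exact hrep ⟨u, w, v, ht⟩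
    rw [this]
    exact continuous_const

/-- having the same data as the pair `p` -/
def Dr (Φ : F2 L) (p : ℕ × ℕ) (c : Code L) (u w : ℕ) : Prop :=
  dat (toI c) (subs Φ) u w = dat (toI c) (subs Φ) p.1 p.2

theorem Dr_iso {Φ : F2 L} {c c' : Code L} (g : ℕ ≃ ℕ)
    (hg : ∀ n (R : L.Relations n) (t : Fin n → ℕ), c ⟨n, R, t⟩ = c' ⟨n, R, fun k => g (t k)⟩)
    (p : ℕ × ℕ) (u w : ℕ) : Dr Φ p c u w ↔ Dr Φ (g p.1, g p.2) c' (g u) (g w) := by
  unfold Dr
  rw [dat_iso g hg, dat_iso g hg]

theorem meas_Dr [∀ n, Countable (L.Relations n)] {Φ : F2 L} (p : ℕ × ℕ) (u w : ℕ) {Y : Type}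
    [MeasurableSpace Y] (f : Y → Code L) (hf : Measurable f) (hm : ∀ y, toI (f y) ∈ Md Φ) :
    Measurable (fun y => Dr Φ p (f y) u w) := by
  apply measurableSet_setOfPred.1
  have : {y : Y | Dr Φ p (f y) u w} =
      {y : Y | code Φ (dat (toI (f y)) (subs Φ) u w) =
        code Φ (dat (toI (f y)) (subs Φ) p.1 p.2)} := by
    ext y
    simp only [mem_ofPred_eq]
    exact ⟨fun h => by rw [show dat (toI (f y)) (subs Φ) u w = _ from h],
      fun h => code_inj (al_dat (hm y) _ _) (al_dat (hm y) _ _) h⟩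
  rw [this]
  exact measurableSet_eq_fun ((meas_code Φ u w).comp hf) ((meas_code Φ p.1 p.2).comp hf)

open Classical in
noncomputable def QD (Φ : F2 L) (p : ℕ × ℕ) (c : Code L) : ℕ → Bool :=
  fun n => decide (Q (Dr Φ p c) p n)

theorem meas_QD [∀ n, Countable (L.Relations n)] {Φ : F2 L} (p : ℕ × ℕ) {Y : Type}
    [MeasurableSpace Y] (f : Y → Code L) (hf : Measurable f) (hm : ∀ y, toI (f y) ∈ Md Φ) :
    Measurable (fun y => QD Φ p (f y)) := by
  rw [measurable_pi_iff]
  intro n
  apply measurable_to_bool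
  have : (fun y => QD Φ p (f y) n) ⁻¹' {true} = {y | Q (Dr Φ p (f y)) p n} := by
    ext c; simp [QD]
  rw [this]
  apply measurableSet_setOfPred.2
  have hr : ∀ u w, Measurable (fun y => Dr Φ p (f y) u w) := fun u w => meas_Dr p u w f hf hm
  unfold Q
  refine Measurable.exists fun y => ((hr _ _).and (hr _ _)).and ?_
  refine Measurable.exists fun s => measurable_const.and ?_
  refine Measurable.forall fun w => measurable_const.iff ?_
  refine ((hr _ _).and (hr _ _)).and ?_
  refine Measurable.exists fun t => Measurable.forall fun z => ?_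
  unfold Pool.Agent.H565R2.LO2.Btw
  exact ((((hr _ _).and (hr _ _)).or ((hr _ _).and (hr _ _)))).imp measurable_const

theorem QD_iso {Φ : F2 L} {c c' : Code L} (g : ℕ ≃ ℕ)
    (hg : ∀ n (R : L.Relations n) (t : Fin n → ℕ), c ⟨n, R, t⟩ = c' ⟨n, R, fun k => g (t k)⟩)
    (p : ℕ × ℕ) : QD Φ p c = QD Φ (g p.1, g p.2) c' := by
  funext n
  unfold QD
  congr 1
  apply propext
  constructor
  · exact Q_mono g (Dr_iso g hg p) p n
  · intro h
    have h2 := Q_mono g.symm (r := Dr Φ (g p.1, g p.2) c') (r' := Dr Φ p c)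
      (fun u w => by rw [Dr_iso g hg]; simp) (g p.1, g p.2) n h
    simpa using h2

/-- Two elements with the same data which are not a symmetric pair give perfectly many models. -/
theorem perf_of_cf [∀ n, Countable (L.Relations n)] {Φ : F2 L} {C : Set (Code L)}
    (hcl : Closed C) {c0 : Code L} (hc0 : c0 ∈ K Φ C) {a b : ℕ}
    (hd : dat (toI c0) (subs Φ) a a = dat (toI c0) (subs Φ) b b)
    (hne : dat (toI c0) (subs Φ) a b ≠ dat (toI c0) (subs Φ) b a) : PerfK (K Φ C) := by
  classical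
  let D : Cf Φ := ⟨toI c0, hc0.1, a, b, hd, hne⟩
  have hcont : Continuous (fun x : ℕ → Bool => ofI (D.Mo x)) := cont_mkI D.dl_coh D.dl_dep
  have hmem : ∀ x, ofI (D.Mo x) ∈ K Φ C := by
    intro x
    refine ⟨?_, ?_⟩
    · rw [toI_ofI]; exact (D.Mo_both x).2
    · refine hcl c0 hc0.2 _ D.pr ?_
      rw [toI_ofI]
      exact D.Mo_infl x
  refine perfK_of_inv (K := K Φ C) (Y := ℕ → Bool) (Z := ℕ → Bool) (ι := ℕ × ℕ)
    (fun x => ofI (D.Mo x)) hcont.measurable hmem
    (fun p x => QD Φ p (ofI (D.Mo x))) ?_ ?_ ?_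
  · intro p
    exact meas_QD p _ hcont.measurable fun x => (hmem x).1
  · rintro y y' ⟨g, hg⟩ p
    exact ⟨(g p.1, g p.2), QD_iso g hg p⟩
  · intro hc
    have h1 : (Set.univ : Set (ℕ → Bool)).Countable := by
      refine hc.mono ?_
      intro x _
      refine mem_iUnion.2 ⟨(Cf.p0, 2 * D.a), x, ?_⟩
      funext k
      simp only [QD]
      rw [Bool.eq_iff_iff, decide_eq_true_iff]
      have e : Dr Φ (Cf.p0, 2 * D.a) (ofI (D.Mo x)) = D.rr x := by
        funext u w
        unfold Dr Cf.rr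
        rw [toI_ofI, D.Mo_dat, D.Mo_dat]
        apply propext
        have h2 : D.rr x Cf.p0 (2 * D.a) := by
          refine (D.rr_block x (D.pr_odd _) (D.pr_2 _)).2 ⟨?_, ?_, Or.inl (by omega)⟩
          · show 2 * en.symm Pool.Agent.H565R2.LO2.c0 + 1 ≠ 2 * D.a
            omega
          · show (2 * en.symm Pool.Agent.H565R2.LO2.c0 + 1) % 2 = 1
            omega
        have h3 : D.dl x Cf.p0 (2 * D.a) = dat D.I (subs Φ) D.a D.b := h2
        rw [h3]
      rw [e]
      exact D.Q_iff x k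
    exact Cfg.cantor_unc h1

end Pool.Agent.K7.H41.TV
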