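import Pool.Agent.K7.H41.TV.Twn

set_option autoImplicit false

/-!
Models with finitely many classes of twins with companions, and the dichotomy.
-/

namespace Pool.Agent.K7.H41.TV

open FirstOrder Set Topology MeasureTheory Pool.Agent.H565R2.FO2
open Pool.Agent.H565R2.LO2 (PerfK perfK_of_inv iso_symm)

variable {L : FirstOrder.Language.{0, 0}}

theorem iso_of_dat {Φ : F2 L} (h2 : ∀ n, 2 < n → IsEmpty (L.Relations n)) {c c' : Code L}
    (g : ℕ ≃ ℕ)
    (hall : ∀ x y, dat (toI c') (subs Φ) (g x) (g y) = dat (toI c) (subs Φ) x y) : Iso c c' := by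
  refine ⟨g, fun n R t => ?_⟩
  have hrep : ∃ (x y : ℕ) (v : Fin n → Bool), t = fun k => pick x y (v k) := by
    rcases Nat.lt_or_ge 2 n with hn | hn
    · exact (h2 n hn).elim R
    · interval_cases n
      · exact ⟨0, 0, fun _ => false, Subsingleton.elim _ _⟩
      · refine ⟨t 0, t 0, fun _ => false, ?_⟩
        funext k
        rw [Subsingleton.elim k 0]; rfl
      · refine ⟨t 0, t 1, ![false, true], ?_⟩
        funext k
        fin_cases k <;> rfl
  obtain ⟨x, y, v, rfl⟩ := hrep
  have h3 : (dat (toI c') (subs Φ) (g x) (g y)).a n R v ↔ (dat (toI c) (subs Φ) x y).a n R v := by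
    rw [hall]
  have h4 : (fun k => g (pick x y (v k))) = fun k => pick (g x) (g y) (v k) := by
    funext k; cases v k <;> rfl
  rw [h4]
  have h5 : (c' ⟨n, R, fun k => pick (g x) (g y) (v k)⟩ = true) ↔
      (c ⟨n, R, fun k => pick x y (v k)⟩ = true) := h3
  rw [Bool.eq_iff_iff]
  exact h5.symm

theorem equiv_of_col {Ω : Type} (col col' : ℕ → Ω)
    (h : ∀ ω, Nonempty ({u // col u = ω} ≃ {u // col' u = ω})) :
    ∃ g : ℕ ≃ ℕ, ∀ u, col' (g u) = col u := by
  classical
  let E : ∀ ω, {u // col u = ω} ≃ {u // col' u = ω} := fun ω => (h ω).some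
  refine ⟨(Equiv.sigmaFiberEquiv col).symm.trans
    ((Equiv.sigmaCongrRight E).trans (Equiv.sigmaFiberEquiv col')), fun u => ?_⟩
  exact (E (col u) ⟨u, rfl⟩).2

theorem equiv_of_encard {S T : Set ℕ} (h : S.encard = T.encard) : Nonempty (S ≃ T) := by
  classical
  by_cases hS : S.Finite
  · have hT : T.Finite := by
      rw [← Set.encard_lt_top_iff, ← h]
      exact Set.encard_lt_top_iff.2 hS
    have := hS.fintype
    have := hT.fintype
    refine ⟨Fintype.equivOfCardEq ?_⟩
    have h1 : S.ncard = T.ncard := by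
      unfold Set.ncard
      rw [h]
    rw [← Nat.card_eq_fintype_card, ← Nat.card_eq_fintype_card]
    exact h1
  · have hT : ¬ T.Finite := by
      intro hT
      apply hS
      rw [← Set.encard_lt_top_iff, h]
      exact Set.encard_lt_top_iff.2 hT
    have h1 : Infinite S := Set.infinite_coe_iff.2 hS
    have h2 : Infinite T := Set.infinite_coe_iff.2 hT
    exact nonempty_equiv_of_countable

/-- the representatives with companions -/
def AA (Φ : F2 L) (c : Code L) : Set ℕ :=
  {a | rep (toI c) (subs Φ) a = a ∧ Nk (toI c) (subs Φ) a}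

/-- two enumerations of the representatives match -/
structure Mt (Φ : F2 L) (C : Set (Code L)) (k : ℕ) (c c' : Code L) (r r' : Fin k → ℕ) : Prop where
  cross : ∀ i j, dat (toI c) (subs Φ) (r i) (r j) = dat (toI c') (subs Φ) (r' i) (r' j)
  l1 : ∀ i, L1 Φ C c (r i) = L1 Φ C c' (r' i)
  bb : ∀ i, dat (toI c) (subs Φ) (r i) (bb (toI c) (subs Φ) (r i)) =
    dat (toI c') (subs Φ) (r' i) (bb (toI c') (subs Φ) (r' i))
  card : ∀ i, {w | Tw (toI c) (subs Φ) (r i) w}.encard =
    {w | Tw (toI c') (subs Φ) (r' i) w}.encard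

section
variable {Φ : F2 L} {C : Set (Code L)} {k : ℕ}

theorem Mt.symm {c c' : Code L} {r r' : Fin k → ℕ} (h : Mt Φ C k c c' r r') :
    Mt Φ C k c' c r' r :=
  ⟨fun i j => (h.cross i j).symm, fun i => (h.l1 i).symm, fun i => (h.bb i).symm,
    fun i => (h.card i).symm⟩

theorem nk_class {c : Code L} (hs : Sy (toI c) (subs Φ)) {r : Fin k → ℕ}
    (hr : Set.range r = AA Φ c) {u : ℕ} (hu : Nk (toI c) (subs Φ) u) :
    ∃ i, rep (toI c) (subs Φ) u = r i := by
  have h1 : rep (toI c) (subs Φ) u ∈ AA Φ c := by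
    refine ⟨rep_rep hs u, ?_⟩
    by_cases h : rep (toI c) (subs Φ) u = u
    · rw [h]; exact hu
    · exact nk_of_tw (tw_symm (tw_rep u)) h
  rw [← hr] at h1
  obtain ⟨i, hi⟩ := h1
  exact ⟨i, hi.symm⟩

theorem nk_tw {I : Interp L ℕ} {J : Set (F2 L)} {u w : ℕ} (h : Tw I J u w) (hu : Nk I J u) :
    Nk I J w := by
  by_cases huw : w = u
  · rw [huw]; exact hu
  · exact nk_of_tw (tw_symm h) huw

theorem r_nk {c : Code L} {r : Fin k → ℕ} (hr : Set.range r = AA Φ c) (i : Fin k) :
    rep (toI c) (subs Φ) (r i) = r i ∧ Nk (toI c) (subs Φ) (r i) := by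
  have : r i ∈ AA Φ c := by rw [← hr]; exact ⟨i, rfl⟩
  exact this

open Classical in
/-- colours -/
noncomputable def col (Φ : F2 L) (c : Code L) (r : Fin k → ℕ) (u : ℕ) : Option (Fin k) × Dat L :=
  (if h : ∃ i, rep (toI c) (subs Φ) u = r i then some h.choose else none,
    dat (toI c) (subs Φ) u u)

theorem col_some {c : Code L} {r : Fin k → ℕ} (hi : Function.Injective r) {u : ℕ} {i : Fin k} :
    (col Φ c r u).1 = some i ↔ rep (toI c) (subs Φ) u = r i := by
  classical
  unfold col
  constructor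
  · intro h
    simp only at h
    split_ifs at h with h1
    have := Option.some.inj h
    rw [← this]
    exact h1.choose_spec
  · intro h
    have h1 : ∃ i, rep (toI c) (subs Φ) u = r i := ⟨i, h⟩
    simp only
    rw [dif_pos h1]
    congr 1
    apply hi
    rw [← h1.choose_spec, h]

theorem col_none {c : Code L} (hs : Sy (toI c) (subs Φ)) {r : Fin k → ℕ}
    (hr : Set.range r = AA Φ c) {u : ℕ} :
    (col Φ c r u).1 = none ↔ ¬ Nk (toI c) (subs Φ) u := by
  classical
  unfold col
  constructor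
  · intro h hu
    obtain ⟨i, hi⟩ := nk_class hs hr hu
    simp only at h
    rw [dif_pos ⟨i, hi⟩] at h
    cases h
  · intro h
    simp only
    rw [dif_neg]
    rintro ⟨i, hi⟩
    apply h
    have h1 := (r_nk hr i).2
    rw [← hi] at h1
    exact nk_tw (tw_symm (tw_rep u)) h1

/-- the element without companions in the second model -/
theorem king {c c' : Code L} (hc : c ∈ K Φ C) (hs' : Sy (toI c') (subs Φ)) {r r' : Fin k → ℕ}
    (hr : Set.range r = AA Φ c) (hr' : Set.range r' = AA Φ c') (hm : Mt Φ C k c c' r r')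
    (hD : Dg Φ C c = Dg Φ C c') {u : ℕ} (hu : ¬ Nk (toI c) (subs Φ) u) :
    ∃ u', ¬ Nk (toI c') (subs Φ) u' ∧ dat (toI c') (subs Φ) u' u' = dat (toI c) (subs Φ) u u := by
  classical
  have h3 : Dg Φ C c ⟨_, c, hc, u, u, rfl⟩ = true := by
    unfold Dg
    rw [decide_eq_true_iff]
    exact ⟨u, u, rfl⟩
  rw [hD] at h3
  unfold Dg at h3
  rw [decide_eq_true_iff] at h3
  obtain ⟨x, y, hxy⟩ := h3
  have hxy' : dat (toI c') (subs Φ) x y = dat (toI c) (subs Φ) u u := hxy
  have he : x = y := (dat_e hxy').2 rfl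
  subst he
  refine ⟨x, fun hx => ?_, hxy⟩
  obtain ⟨i, hi⟩ := nk_class hs' hr' hx
  have h4 : dat (toI c') (subs Φ) x x = dat (toI c') (subs Φ) (r' i) (r' i) := by
    have := (tw_rep (I := toI c') (J := subs Φ) x).1
    rw [hi] at this
    exact this
  have h5 : dat (toI c) (subs Φ) (r i) (r i) = dat (toI c) (subs Φ) u u := by
    rw [hm.cross, ← h4, hxy]
  by_cases h6 : r i = u
  · exact hu (by rw [← h6]; exact (r_nk hr i).2)
  · exact hu ⟨r i, h6, h5⟩

theorem uniq {I : Interp L ℕ} {J : Set (F2 L)} {u v : ℕ} (hu : ¬ Nk I J u)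
    (h : dat I J v v = dat I J u u) : v = u := by
  by_contra hne
  exact hu ⟨v, hne, h⟩

theorem iso_of_mt (h2 : ∀ n, 2 < n → IsEmpty (L.Relations n))
    {c c' : Code L} (hc : c ∈ K Φ C) (hc' : c' ∈ K Φ C) (hs : Sy (toI c) (subs Φ))
    (hs' : Sy (toI c') (subs Φ)) {r r' : Fin k → ℕ} (hi : Function.Injective r)
    (hi' : Function.Injective r')
    (hr : Set.range r = AA Φ c) (hr' : Set.range r' = AA Φ c') (hm : Mt Φ C k c c' r r')
    (hD : Dg Φ C c = Dg Φ C c') : Iso c c' := by
  classical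
  have hfib : ∀ ω, Nonempty ({u // col Φ c r u = ω} ≃ {u // col Φ c' r' u = ω}) := by
    rintro ⟨_ | i, d⟩
    · -- elements without companions
      have key : ∀ {c c' : Code L} {r r' : Fin k → ℕ}, c ∈ K Φ C → Sy (toI c) (subs Φ) →
          Sy (toI c') (subs Φ) → Set.range r = AA Φ c →
          Set.range r' = AA Φ c' → Mt Φ C k c c' r r' → Dg Φ C c = Dg Φ C c' → ∀ u,
          col Φ c r u = (none, d) → ∃ u', col Φ c' r' u' = (none, d) := by
        intro c c' r r' hc hs hs' hr hr' hm hD u hu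
        have h1 : ¬ Nk (toI c) (subs Φ) u := (col_none hs hr).1 (by rw [hu])
        obtain ⟨u', h3, h4⟩ := king hc hs' hr hr' hm hD h1
        refine ⟨u', Prod.ext ((col_none hs' hr').2 h3) ?_⟩
        show dat (toI c') (subs Φ) u' u' = d
        rw [h4]
        have : (col Φ c r u).2 = d := by rw [hu]
        exact this
      have sub : ∀ {c : Code L} {r : Fin k → ℕ}, Sy (toI c) (subs Φ) → Set.range r = AA Φ c →
          Subsingleton {u // col Φ c r u = (none, d)} := by
        intro c r hs hr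
        refine ⟨fun u v => Subtype.ext ?_⟩
        have h1 : ¬ Nk (toI c) (subs Φ) v.1 := (col_none hs hr).1 (by rw [v.2])
        apply uniq h1
        have e1 : (col Φ c r u.1).2 = d := by rw [u.2]
        have e2 : (col Φ c r v.1).2 = d := by rw [v.2]
        exact (e1.trans e2.symm)
      have s1 := sub hs hr
      have s2 := sub hs' hr'
      by_cases hne : ∃ u, col Φ c r u = (none, d)
      · obtain ⟨u, hu⟩ := hne
        obtain ⟨u', hu'⟩ := key hc hs hs' hr hr' hm hD u hu
        exact ⟨⟨fun _ => ⟨u', hu'⟩, fun _ => ⟨u, hu⟩, fun _ => Subsingleton.elim _ _,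
          fun _ => Subsingleton.elim _ _⟩⟩
      · refine ⟨⟨fun x => absurd ⟨x.1, x.2⟩ hne, fun x => ?_, fun _ => Subsingleton.elim _ _,
          fun _ => Subsingleton.elim _ _⟩⟩
        exact absurd (key hc' hs' hs hr' hr hm.symm hD.symm x.1 x.2) hne
    · -- twins of `r i`
      have key : ∀ {c : Code L} {r : Fin k → ℕ}, Sy (toI c) (subs Φ) → Function.Injective r →
          Set.range r = AA Φ c →
          ∀ u, col Φ c r u = (some i, d) ↔
            (Tw (toI c) (subs Φ) (r i) u ∧ dat (toI c) (subs Φ) (r i) (r i) = d) := by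
        intro c r hs hi hr u
        have h1 : (col Φ c r u).1 = some i ↔ Tw (toI c) (subs Φ) (r i) u := by
          rw [col_some hi, tw_iff_rep hs, (r_nk hr i).1]
          exact eq_comm
        constructor
        · intro h
          have h3 := h1.1 (by rw [h])
          refine ⟨h3, ?_⟩
          rw [h3.1]
          have : (col Φ c r u).2 = d := by rw [h]
          exact this
        · rintro ⟨h3, h4⟩
          refine Prod.ext (h1.2 h3) ?_
          show dat (toI c) (subs Φ) u u = d
          rw [← h3.1, h4]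
      by_cases hd : dat (toI c) (subs Φ) (r i) (r i) = d
      · have hd' : dat (toI c') (subs Φ) (r' i) (r' i) = d := by rw [← hm.cross, hd]
        obtain ⟨E⟩ := equiv_of_encard (hm.card i)
        refine ⟨(Equiv.subtypeEquivRight fun u => ?_).trans
          (E.trans (Equiv.subtypeEquivRight fun u => ?_))⟩
        · rw [key hs hi hr u]
          exact ⟨fun h => h.1, fun h => ⟨h, hd⟩⟩
        · rw [key hs' hi' hr' u]
          exact ⟨fun h => ⟨h, hd'⟩, fun h => h.1⟩
      · have hd' : dat (toI c') (subs Φ) (r' i) (r' i) ≠ d := by rw [← hm.cross]; exact hd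
        have e1 : IsEmpty {u // col Φ c r u = (some i, d)} :=
          ⟨fun u => hd ((key hs hi hr u.1).1 u.2).2⟩
        have e2 : IsEmpty {u // col Φ c' r' u = (some i, d)} :=
          ⟨fun u => hd' ((key hs' hi' hr' u.1).1 u.2).2⟩
        exact ⟨Equiv.equivOfIsEmpty _ _⟩
  obtain ⟨g, hg⟩ := equiv_of_col _ _ hfib
  have hdiag : ∀ u, dat (toI c') (subs Φ) (g u) (g u) = dat (toI c) (subs Φ) u u :=
    fun u => congrArg Prod.snd (hg u)
  have hcls : ∀ u i, Tw (toI c) (subs Φ) (r i) u → Tw (toI c') (subs Φ) (r' i) (g u) := by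
    intro u i h
    have h1 : (col Φ c r u).1 = some i := by
      rw [col_some hi, ← rep_eq hs h, (r_nk hr i).1]
    rw [← hg u] at h1
    rw [tw_iff_rep hs', (r_nk hr' i).1]
    exact ((col_some hi').1 h1).symm
  have hking : ∀ u, ¬ Nk (toI c) (subs Φ) u → ¬ Nk (toI c') (subs Φ) (g u) := by
    intro u h
    have h1 := (col_none hs hr).2 h
    rw [← hg u] at h1
    exact (col_none hs' hr').1 h1
  have hex : ∀ u, Nk (toI c) (subs Φ) u → ∃ i, Tw (toI c) (subs Φ) (r i) u := by
    intro u h
    obtain ⟨i, hi⟩ := nk_class hs hr h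
    refine ⟨i, ?_⟩
    rw [tw_iff_rep hs, (r_nk hr i).1, hi]
  -- pairs with an element with companions and an element without
  have hnk : ∀ u w, Nk (toI c) (subs Φ) u → ¬ Nk (toI c) (subs Φ) w →
      dat (toI c') (subs Φ) (g u) (g w) = dat (toI c) (subs Φ) u w := by
    intro u w hu hw
    obtain ⟨i, hi⟩ := hex u hu
    have hw' := hking w hw
    have n1 : w ≠ r i := by rintro rfl; exact hw (r_nk hr i).2
    have n2 : w ≠ u := by rintro rfl; exact hw hu
    have n3 : g w ≠ r' i := by
      intro h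
      exact hw' (by rw [h]; exact (r_nk hr' i).2)
    have n4 : g w ≠ g u := fun h => n2 (g.injective h)
    rw [← hi.2 w n1 n2, ← (hcls u i hi).2 (g w) n3 n4]
    have h3 : L1 Φ C c (r i) ⟨_, c, hc, r i, w, rfl⟩ = true := by
      unfold L1
      rw [decide_eq_true_iff]
      exact ⟨w, rfl⟩
    rw [hm.l1] at h3
    unfold L1 at h3
    rw [decide_eq_true_iff] at h3
    obtain ⟨y, hy⟩ := h3
    have h4 : dat (toI c') (subs Φ) y y = dat (toI c') (subs Φ) (g w) (g w) := by
      have h5 := congrArg (fun d => Dat.map d (fun _ => true)) hy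
      simp only [dat_map, pick_true] at h5
      rw [h5, hdiag]
    have h6 := uniq hw' h4
    rw [← h6]
    exact hy
  refine iso_of_dat (Φ := Φ) h2 g fun u w => ?_
  by_cases huw : u = w
  · rw [huw]; exact hdiag w
  by_cases hu : Nk (toI c) (subs Φ) u
  · by_cases hw : Nk (toI c) (subs Φ) w
    · obtain ⟨i, hti⟩ := hex u hu
      obtain ⟨j, htj⟩ := hex w hw
      have hgw : g u ≠ g w := fun h => huw (g.injective h)
      by_cases hij : i = j
      · subst hij
        have key : ∀ {c : Code L} {r : Fin k → ℕ}, Sy (toI c) (subs Φ) → ∀ u w, u ≠ w →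
            Tw (toI c) (subs Φ) (r i) u → Tw (toI c) (subs Φ) (r i) w →
            dat (toI c) (subs Φ) u w = dat (toI c) (subs Φ) (r i) (bb (toI c) (subs Φ) (r i)) := by
          intro c r hs u w huw hu hw
          by_cases h1 : u = r i
          · subst h1
            exact bb_tw hw (Ne.symm huw) hs
          · by_cases h3 : w = r i
            · subst h3
              rw [hs u (r i) hu.1.symm]
              exact bb_tw hu h1 hs
            · rw [← hu.2 w h3 (Ne.symm huw)]
              exact bb_tw hw h3 hs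
        rw [key hs u w huw hti htj, key hs' (g u) (g w) hgw (hcls u i hti) (hcls w i htj), hm.bb]
      · have key : ∀ {c : Code L} {r : Fin k → ℕ}, Sy (toI c) (subs Φ) →
            Function.Injective r → Set.range r = AA Φ c → ∀ u w,
            Tw (toI c) (subs Φ) (r i) u → Tw (toI c) (subs Φ) (r j) w →
            dat (toI c) (subs Φ) u w = dat (toI c) (subs Φ) (r i) (r j) := by
          intro c r hs hi hr u w hu hw
          have hrij : rep (toI c) (subs Φ) (r i) ≠ rep (toI c) (subs Φ) (r j) := by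
            rw [(r_nk hr i).1, (r_nk hr j).1]
            exact fun h => hij (hi h)
          have n1 : w ≠ r i := by
            rintro rfl
            exact hrij (rep_eq hs hw).symm
          have n2 : w ≠ u := by
            rintro rfl
            exact hrij ((rep_eq hs hu).trans (rep_eq hs hw).symm)
          have n3 : r i ≠ r j := fun h => hij (hi h)
          rw [← hu.2 w n1 n2]
          exact (tw_uni hw n3 (Ne.symm n1)).symm
        rw [key hs hi hr u w hti htj, key hs' hi' hr' (g u) (g w) (hcls u i hti) (hcls w j htj),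
          hm.cross]
    · exact hnk u w hu hw
  · by_cases hw : Nk (toI c) (subs Φ) w
    · exact dat_sw (hnk w u hw hu)
    · have h3 : Dg Φ C c ⟨_, c, hc, u, w, rfl⟩ = true := by
        unfold Dg
        rw [decide_eq_true_iff]
        exact ⟨u, w, rfl⟩
      rw [hD] at h3
      unfold Dg at h3
      rw [decide_eq_true_iff] at h3
      obtain ⟨x, y, hxy⟩ := h3
      have hx : x = g u := by
        apply uniq (hking u hu)
        have h5 := congrArg (fun d => Dat.map d (fun _ => false)) hxy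
        simp only [dat_map, pick_false] at h5
        rw [h5, hdiag]
      have hy : y = g w := by
        apply uniq (hking w hw)
        have h5 := congrArg (fun d => Dat.map d (fun _ => true)) hxy
        simp only [dat_map, pick_true] at h5
        rw [h5, hdiag]
      rw [← hx, ← hy]
      exact hxy

end

/-- The dichotomy. -/
theorem main [∀ n, Countable (L.Relations n)] (Φ : F2 L) {C : Set (Code L)}
    (hC : MeasurableSet C) (hcl : Closed C) :
    (∃ g : ℕ → Code L, ∀ c ∈ K Φ C, ∃ n, Iso c (g n)) ∨ PerfK (K Φ C) := by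
  classical
  by_cases hP : PerfK (K Φ C)
  · exact Or.inr hP
  left
  by_cases hne : Nonempty ↥(K Φ C)
  · have h2 : ∀ n, 2 < n → IsEmpty (L.Relations n) := by
      intro n hn
      refine ⟨fun R => ?_⟩
      exact hP (perf_of_ternary hcl hn R hne.some.2)
    have hs : ∀ c ∈ K Φ C, Sy (toI c) (subs Φ) := by
      intro c hc a b hd
      by_contra hne
      exact hP (perf_of_cf hcl hc hd hne)
    have hfin : ∀ c ∈ K Φ C, (AA Φ c).Finite := by
      intro c hc
      by_contra h
      exact hP (perf_of_inf hcl hc (hs c hc) h)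
    have hen : ∀ c : ↥(K Φ C), ∃ k, ∃ r : Fin k → ℕ, Function.Injective r ∧
        Set.range r = AA Φ c.1 := by
      intro c
      have := (hfin c.1 c.2).to_subtype
      obtain ⟨k, ⟨E⟩⟩ := Finite.exists_equiv_fin (AA Φ c.1)
      refine ⟨k, fun i => (E.symm i).1, fun i j h => E.symm.injective (Subtype.ext h), ?_⟩
      ext a
      constructor
      · rintro ⟨i, rfl⟩
        exact (E.symm i).2
      · intro ha
        exact ⟨E ⟨a, ha⟩, by simp⟩
    choose k r hri hrr using hen
    have hA := ak_countable hC hP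
    have := hA.to_subtype
    have hL := (l1_countable hC hP).to_subtype
    let LL : Type := {z : ↥(AK Φ C) → Bool // ∃ c ∈ K Φ C, ∃ x, z = L1 Φ C c x}
    have hLL : Countable LL := hL
    let Inf : Type := Σ k : ℕ, (Fin k → Fin k → ↥(AK Φ C)) × (Fin k → LL) ×
      (Fin k → ↥(AK Φ C)) × (Fin k → ℕ∞)
    have hInf : Countable Inf := inferInstance
    let info : ↥(K Φ C) → Inf := fun c => ⟨k c, fun i j => ⟨_, c.1, c.2, r c i, r c j, rfl⟩,
      fun i => ⟨_, c.1, c.2, r c i, rfl⟩,
      fun i => ⟨_, c.1, c.2, r c i, bb (toI c.1) (subs Φ) (r c i), rfl⟩,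
      fun i => {w | Tw (toI c.1) (subs Φ) (r c i) w}.encard⟩
    let F : ↥(K Φ C) → (↥(AK Φ C) → Bool) × Inf := fun c => (Dg Φ C c.1, info c)
    have hF : (Set.range F).Countable := by
      refine ((dg_countable hC hP).prod (Set.countable_univ (α := Inf))).mono ?_
      rintro _ ⟨c, rfl⟩
      exact ⟨⟨c, rfl⟩, trivial⟩
    obtain ⟨f, hf⟩ := hF.exists_eq_range (Set.range_nonempty _)
    have hg : ∀ n, ∃ c : ↥(K Φ C), F c = f n := by
      intro n
      have : f n ∈ Set.range F := by rw [hf]; exact ⟨n, rfl⟩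
      exact this
    choose m hm using hg
    refine ⟨fun n => (m n).1, fun c hc => ?_⟩
    have : F ⟨c, hc⟩ ∈ Set.range f := by
      rw [← hf]; exact ⟨⟨c, hc⟩, rfl⟩
    obtain ⟨n, hn⟩ := this
    refine ⟨n, ?_⟩
    have hFF : F ⟨c, hc⟩ = F (m n) := by rw [hm, hn]
    have hD : Dg Φ C c = Dg Φ C (m n).1 := congrArg Prod.fst hFF
    have hI : info ⟨c, hc⟩ = info (m n) := congrArg Prod.snd hFF
    have hk : k ⟨c, hc⟩ = k (m n) := congrArg Sigma.fst hI
    have aux : ∀ (c1 c2 : ↥(K Φ C)) (k1 k2 : ℕ) (r1 : Fin k1 → ℕ) (r2 : Fin k2 → ℕ),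
        (⟨k1, fun i j => ⟨_, c1.1, c1.2, r1 i, r1 j, rfl⟩,
          fun i => ⟨_, c1.1, c1.2, r1 i, rfl⟩,
          fun i => ⟨_, c1.1, c1.2, r1 i, bb (toI c1.1) (subs Φ) (r1 i), rfl⟩,
          fun i => {w | Tw (toI c1.1) (subs Φ) (r1 i) w}.encard⟩ : Inf) =
        ⟨k2, fun i j => ⟨_, c2.1, c2.2, r2 i, r2 j, rfl⟩,
          fun i => ⟨_, c2.1, c2.2, r2 i, rfl⟩,
          fun i => ⟨_, c2.1, c2.2, r2 i, bb (toI c2.1) (subs Φ) (r2 i), rfl⟩,
          fun i => {w | Tw (toI c2.1) (subs Φ) (r2 i) w}.encard⟩ →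
        Function.Injective r1 → Function.Injective r2 → Set.range r1 = AA Φ c1.1 →
        Set.range r2 = AA Φ c2.1 → Dg Φ C c1.1 = Dg Φ C c2.1 → Iso c1.1 c2.1 := by
      intro c1 c2 k1 k2 r1 r2 h i1 i2 e1 e2 hD
      have hk : k1 = k2 := congrArg Sigma.fst h
      subst hk
      have h' := eq_of_heq (Sigma.mk.inj h).2
      obtain ⟨h3, h4⟩ := Prod.mk.inj h'
      obtain ⟨h5, h6⟩ := Prod.mk.inj h4
      obtain ⟨h7, h8⟩ := Prod.mk.inj h6
      refine iso_of_mt h2 c1.2 c2.2 (hs _ c1.2) (hs _ c2.2) i1 i2 e1 e2 ⟨fun i j => ?_,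
        fun i => ?_, fun i => ?_, fun i => ?_⟩ hD
      · exact congrArg Subtype.val (congrFun (congrFun h3 i) j)
      · exact congrArg Subtype.val (congrFun h5 i)
      · exact congrArg Subtype.val (congrFun h7 i)
      · exact congrFun h8 i
    exact aux ⟨c, hc⟩ (m n) _ _ _ _ hI (hri _) (hri _) (hrr _) (hrr _) hD
  · exact ⟨fun _ => fun _ => false, fun c hc => absurd ⟨⟨c, hc⟩⟩ hne⟩

end Pool.Agent.K7.H41.TV
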