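import Pool.Agent.K7.H41.TV.Cls
import Pool.Agent.H834V.Adapt

set_option autoImplicit false

/-!
Partial orders, linear orders and acyclic relations are preserved by inflations.
-/

namespace Pool.Agent.K7.H41.TV

open FirstOrder Set Topology MeasureTheory Pool.Agent.H565R2.FO2
open Pool.Agent.H565R2.LO2 (rho vec_pick SPO meas_SPO meas_rho)

variable {L : FirstOrder.Language.{0, 0}}

theorem pe_rho {J I : Interp L ℕ} {u w a b : ℕ} (h : PE J I u w a b) (R : L.Relations 2) :
    rho J R u w ↔ rho I R a b := by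
  unfold rho
  rw [vec_pick, vec_pick]
  exact h 2 R ![false, true]

/-- the cases for a pair in an inflation -/
theorem infl_cases {J I : Interp L ℕ} {π : ℕ → ℕ} (h : Infl J I π) (R : L.Relations 2) :
    (∀ u, rho J R u u ↔ rho I R (π u) (π u)) ∧
    (∀ u w, π u ≠ π w → (rho J R u w ↔ rho I R (π u) (π w))) ∧
    ∀ c, ∃ b, b ≠ c ∧ ∃ lt : ℕ → ℕ → Prop, Chain (fun u => π u = c) lt ∧
      ∀ u w, π u = c → π w = c → lt u w →
        ((rho J R u w ↔ rho I R c b) ∧ (rho J R w u ↔ rho I R b c)) := by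
  refine ⟨fun u => pe_rho (h.same u) R, fun u w hne => pe_rho (h.across u w hne) R, fun c => ?_⟩
  obtain ⟨b, hb, lt, h1, h2⟩ := h.inside c
  exact ⟨b, hb, lt, h1, fun u w hu hw hl => ⟨pe_rho (h2 u w hu hw hl) R,
    pe_rho (pe_swap (h2 u w hu hw hl)) R⟩⟩

theorem infl_spo {J I : Interp L ℕ} {π : ℕ → ℕ} (h : Infl J I π) {R : L.Relations 2}
    (hI : SPO (rho I R)) : SPO (rho J R) := by
  obtain ⟨h1, h2, h3⟩ := infl_cases h R
  have hirr : ∀ u, ¬ rho J R u u := fun u hu => hI.1 _ ((h1 u).1 hu)
  refine ⟨hirr, fun u v w huv hvw => ?_⟩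
  by_cases e1 : π u = π v
  · by_cases e2 : π v = π w
    · obtain ⟨b, hb, lt, hc, hl⟩ := h3 (π v)
      have n1 : u ≠ v := by rintro rfl; exact hirr _ huv
      have n2 : v ≠ w := by rintro rfl; exact hirr _ hvw
      have has : rho I R (π v) b → ¬ rho I R b (π v) := fun a1 a2 => hI.1 _ (hI.2 _ _ _ a1 a2)
      rcases hc.tot u v e1 rfl n1 with l1 | l1
      · rcases hc.tot v w rfl e2.symm n2 with l2 | l2
        · exact ((hl u w e1 e2.symm (hc.tr u v w e1 rfl e2.symm l1 l2)).1).2
            ((hl u v e1 rfl l1).1.1 huv)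
        · exact absurd ((hl w v e2.symm rfl l2).2.1 hvw) (has ((hl u v e1 rfl l1).1.1 huv))
      · rcases hc.tot v w rfl e2.symm n2 with l2 | l2
        · exact absurd ((hl v u rfl e1 l1).2.1 huv) (has ((hl v w rfl e2.symm l2).1.1 hvw))
        · exact ((hl w u e2.symm e1 (hc.tr w v u e2.symm rfl e1 l2 l1)).2).2
            ((hl v u rfl e1 l1).2.1 huv)
    · rw [h2 _ _ e2] at hvw
      rw [h2 _ _ (by rw [e1]; exact e2), e1]
      exact hvw
  · rw [h2 _ _ e1] at huv
    by_cases e2 : π v = π w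
    · rw [h2 _ _ (by rw [← e2]; exact e1), ← e2]
      exact huv
    · rw [h2 _ _ e2] at hvw
      have h4 := hI.2 _ _ _ huv hvw
      by_cases e3 : π u = π w
      · exfalso
        rw [e3] at h4
        exact hI.1 _ h4
      · exact (h2 _ _ e3).2 h4

theorem infl_tot {J I : Interp L ℕ} {π : ℕ → ℕ} (h : Infl J I π) {R : L.Relations 2}
    (hI : ∀ u w, u ≠ w → rho I R u w ∨ rho I R w u) :
    ∀ u w, u ≠ w → rho J R u w ∨ rho J R w u := by
  obtain ⟨-, h2, h3⟩ := infl_cases h R
  intro u w hne
  by_cases e : π u = π w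
  · obtain ⟨b, hb, lt, hc, hl⟩ := h3 (π u)
    rcases hc.tot u w rfl e.symm hne with l1 | l1
    · rcases hI _ _ hb with h4 | h4
      · exact Or.inr ((hl u w rfl e.symm l1).2.2 h4)
      · exact Or.inl ((hl u w rfl e.symm l1).1.2 h4)
    · rcases hI _ _ hb with h4 | h4
      · exact Or.inl ((hl w u e.symm rfl l1).2.2 h4)
      · exact Or.inr ((hl w u e.symm rfl l1).1.2 h4)
  · rcases hI _ _ e with h4 | h4
    · exact Or.inl ((h2 _ _ e).2 h4)
    · exact Or.inr ((h2 _ _ (Ne.symm e)).2 h4)

theorem infl_acy {J I : Interp L ℕ} {π : ℕ → ℕ} (h : Infl J I π) {R : L.Relations 2}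
    (hI : ∀ u, ¬ Relation.TransGen (rho I R) u u) : ∀ u, ¬ Relation.TransGen (rho J R) u u := by
  obtain ⟨h1, h2, h3⟩ := infl_cases h R
  choose b hb lt hc hl using h3
  have has : ∀ c, rho I R c (b c) → ¬ rho I R (b c) c := fun c a1 a2 =>
    hI c (Relation.TransGen.tail (Relation.TransGen.single a1) a2)
  have hirr : ∀ u, ¬ rho J R u u := fun u hu => hI _ (Relation.TransGen.single ((h1 u).1 hu))
  -- one step inside a class
  have step : ∀ u w, π u = π w → rho J R u w →
      ((rho I R (π u) (b (π u)) ∧ lt (π u) u w) ∨ (rho I R (b (π u)) (π u) ∧ lt (π u) w u)) := by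
    intro u w e huw
    have hne : u ≠ w := by rintro rfl; exact hirr _ huw
    rcases (hc (π u)).tot u w rfl e.symm hne with l1 | l1
    · exact Or.inl ⟨(hl _ u w rfl e.symm l1).1.1 huw, l1⟩
    · exact Or.inr ⟨(hl _ w u e.symm rfl l1).2.1 huw, l1⟩
  have key : ∀ u w, Relation.TransGen (rho J R) u w →
      Relation.TransGen (rho I R) (π u) (π w) ∨ (π u = π w ∧
        ((rho I R (π u) (b (π u)) ∧ lt (π u) u w) ∨
          (rho I R (b (π u)) (π u) ∧ lt (π u) w u))) := by
    intro u w huw
    induction huw with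
    | single h4 =>
      rename_i w
      by_cases e : π u = π w
      · exact Or.inr ⟨e, step _ _ e h4⟩
      · exact Or.inl (Relation.TransGen.single ((h2 _ _ e).1 h4))
    | tail h8 h5 ih =>
      rename_i v w
      by_cases e : π v = π w
      · rcases ih with h6 | ⟨e2, h6⟩
        · rw [← e]; exact Or.inl h6
        · refine Or.inr ⟨e2.trans e, ?_⟩
          have h7 := step v w e h5
          rw [← e2] at h7
          rcases h6 with ⟨a1, a2⟩ | ⟨a1, a2⟩
          · rcases h7 with ⟨b1, b2⟩ | ⟨b1, b2⟩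
            · exact Or.inl ⟨a1, (hc _).tr u v w rfl e2.symm (e2.trans e).symm a2 b2⟩
            · exact absurd b1 (has _ a1)
          · rcases h7 with ⟨b1, b2⟩ | ⟨b1, b2⟩
            · exact absurd a1 (has _ b1)
            · exact Or.inr ⟨a1, (hc _).tr w v u (e2.trans e).symm e2.symm rfl b2 a2⟩
      · have h7 := (h2 _ _ e).1 h5
        rcases ih with h6 | ⟨e2, h6⟩
        · exact Or.inl (Relation.TransGen.tail h6 h7)
        · rw [e2]; exact Or.inl (Relation.TransGen.single h7)
  intro u hu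
  rcases key u u hu with h4 | ⟨-, ⟨-, h4⟩ | ⟨-, h4⟩⟩
  · exact hI _ h4
  · exact (hc (π u)).irr u rfl h4
  · exact (hc (π u)).irr u rfl h4

/-- paths of length `n + 1` -/
def Pth (r : ℕ → ℕ → Prop) : ℕ → ℕ → ℕ → Prop
  | 0, u, w => r u w
  | n + 1, u, w => ∃ v, Pth r n u v ∧ r v w

theorem trans_iff (r : ℕ → ℕ → Prop) (u w : ℕ) : Relation.TransGen r u w ↔ ∃ n, Pth r n u w := by
  constructor
  · intro h
    induction h with
    | single h => exact ⟨0, h⟩
    | tail _ h ih =>
      obtain ⟨n, hn⟩ := ih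
      exact ⟨n + 1, _, hn, h⟩
  · rintro ⟨n, hn⟩
    induction n generalizing w with
    | zero => exact Relation.TransGen.single hn
    | succ n ih =>
      obtain ⟨v, h1, h2⟩ := hn
      exact Relation.TransGen.tail (ih v h1) h2

theorem meas_acy (R : L.Relations 2) :
    Measurable (fun c : Code L => ∀ u, ¬ Relation.TransGen (rho (toI c) R) u u) := by
  have h : ∀ n u w, Measurable (fun c : Code L => Pth (rho (toI c) R) n u w) := by
    intro n
    induction n with
    | zero => exact fun u w => meas_rho R u w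
    | succ n ih => exact fun u w => Measurable.exists fun v => (ih u v).and (meas_rho R v w)
  simp only [trans_iff]
  exact Measurable.forall fun u => (Measurable.exists fun n => h n u u).not

/-- strict partial orders, linear orders and acyclic relations -/
def CO (P O A : Set (L.Relations 2)) : Set (Code L) :=
  {c | (∀ R ∈ P, SPO (rho (toI c) R)) ∧
    (∀ R ∈ O, SPO (rho (toI c) R) ∧ ∀ u w, u ≠ w → rho (toI c) R u w ∨ rho (toI c) R w u) ∧
    ∀ R ∈ A, ∀ u, ¬ Relation.TransGen (rho (toI c) R) u u}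

theorem meas_CO [∀ n, Countable (L.Relations n)] (P O A : Set (L.Relations 2)) :
    MeasurableSet (CO P O A) := by
  apply measurableSet_setOfPred.2
  refine Measurable.and ?_ (Measurable.and ?_ ?_)
  · exact Measurable.forall fun R => Measurable.forall fun _ => meas_SPO R
  · refine Measurable.forall fun R => Measurable.forall fun _ => (meas_SPO R).and ?_
    refine Measurable.forall fun u => Measurable.forall fun w => ?_
    exact measurable_const.imp ((meas_rho R u w).or (meas_rho R w u))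
  · exact Measurable.forall fun R => Measurable.forall fun _ => meas_acy R

theorem closed_CO (P O A : Set (L.Relations 2)) : Closed (CO P O A) := by
  intro c hc c' π h
  exact ⟨fun R hR => infl_spo h (hc.1 R hR), fun R hR => ⟨infl_spo h (hc.2.1 R hR).1,
    infl_tot h (hc.2.1 R hR).2⟩, fun R hR => infl_acy h (hc.2.2 R hR)⟩

end Pool.Agent.K7.H41.TV
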