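import Pool.Agent.K7.H41.TV.Chn

set_option autoImplicit false

/-!
Twins, and models with prescribed numbers of twins.
-/

namespace Pool.Agent.K7.H41.TV

open FirstOrder Set Topology MeasureTheory Pool.Agent.H565R2.FO2
open Pool.Agent.H565R2.LO2 (PerfK perfK_of_inv iso_symm)

variable {L : FirstOrder.Language.{0, 0}}

/-- twins -/
def Tw (I : Interp L ℕ) (J : Set (F2 L)) (u w : ℕ) : Prop :=
  dat I J u u = dat I J w w ∧ ∀ z, z ≠ u → z ≠ w → dat I J u z = dat I J w z

/-- all pairs of different elements with the same data are symmetric -/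
def Sy (I : Interp L ℕ) (J : Set (F2 L)) : Prop :=
  ∀ a b, dat I J a a = dat I J b b → dat I J a b = dat I J b a

/-- another element has the same data -/
def Nk (I : Interp L ℕ) (J : Set (F2 L)) (u : ℕ) : Prop := ∃ v, v ≠ u ∧ dat I J v v = dat I J u u

section
variable {I : Interp L ℕ} {J : Set (F2 L)}

theorem dat_sw {I' : Interp L ℕ} {J' : Set (F2 L)} {u w x y : ℕ}
    (h : dat I J u w = dat I' J' x y) : dat I J w u = dat I' J' y x := by
  rw [dat_not u w, dat_not x y, h]

theorem tw_refl (u : ℕ) : Tw I J u u := ⟨rfl, fun _ _ _ => rfl⟩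

theorem tw_symm {u w : ℕ} (h : Tw I J u w) : Tw I J w u :=
  ⟨h.1.symm, fun z h1 h2 => (h.2 z h2 h1).symm⟩

theorem tw_trans (hs : Sy I J) {u v w : ℕ} (h1 : Tw I J u v) (h2 : Tw I J v w) : Tw I J u w := by
  by_cases huv : u = v
  · subst huv; exact h2
  by_cases hvw : v = w
  · subst hvw; exact h1
  by_cases huw : u = w
  · subst huw; exact tw_refl u
  refine ⟨h1.1.trans h2.1, fun z hz1 hz2 => ?_⟩
  by_cases hz : z = v
  · subst hz
    have a1 : dat I J z u = dat I J w u := h2.2 u huv huw
    have a2 : dat I J u w = dat I J z w := h1.2 w (Ne.symm huw) (Ne.symm hvw)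
    have a3 : dat I J u w = dat I J w u := hs u w (h1.1.trans h2.1)
    have a4 : dat I J u z = dat I J z u := hs u z h1.1
    have a5 : dat I J z w = dat I J w z := hs z w h2.1
    rw [a4, a1, ← a3, a2, a5]
  · rw [h1.2 z hz1 hz, h2.2 z hz hz2]

theorem tw_uni {u v w : ℕ} (h : Tw I J v w) (h1 : u ≠ v) (h2 : u ≠ w) :
    dat I J u v = dat I J u w := dat_sw (h.2 u h1 h2)

theorem nk_of_tw {u w : ℕ} (h : Tw I J u w) (hne : u ≠ w) : Nk I J u := ⟨w, hne.symm, h.1.symm⟩

open Classical in
/-- the least twin -/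
noncomputable def rep (I : Interp L ℕ) (J : Set (F2 L)) (u : ℕ) : ℕ :=
  Nat.find (⟨u, tw_refl u⟩ : ∃ v, Tw I J u v)

theorem tw_rep (u : ℕ) : Tw I J u (rep I J u) := by
  classical
  exact Nat.find_spec (⟨u, tw_refl u⟩ : ∃ v, Tw I J u v)

theorem rep_eq (hs : Sy I J) {u w : ℕ} (h : Tw I J u w) : rep I J u = rep I J w := by
  classical
  have aux : ∀ {u w : ℕ}, Tw I J u w → rep I J u ≤ rep I J w := by
    intro u w h
    exact Nat.find_min' _ (tw_trans hs h (tw_rep w))
  exact le_antisymm (aux h) (aux (tw_symm h))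

theorem rep_rep (hs : Sy I J) (u : ℕ) : rep I J (rep I J u) = rep I J u :=
  (rep_eq hs (tw_rep u)).symm

theorem tw_iff_rep (hs : Sy I J) {u w : ℕ} : Tw I J u w ↔ rep I J u = rep I J w := by
  refine ⟨rep_eq hs, fun h => ?_⟩
  have := tw_rep (I := I) (J := J) u
  rw [h] at this
  exact tw_trans hs this (tw_symm (tw_rep w))

open Classical in
/-- a partner -/
noncomputable def bb (I : Interp L ℕ) (J : Set (F2 L)) (a : ℕ) : ℕ :=
  if h : ∃ s, s ≠ a ∧ Tw I J a s then h.choose
  else if h : Nk I J a then h.choose else a + 1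

theorem bb_ne (a : ℕ) : bb I J a ≠ a := by
  classical
  unfold bb
  split_ifs with h1 h2
  · exact h1.choose_spec.1
  · exact h2.choose_spec.1
  · omega

theorem bb_dat {a : ℕ} (h : Nk I J a) : dat I J (bb I J a) (bb I J a) = dat I J a a := by
  classical
  unfold bb
  split_ifs with h1
  · exact h1.choose_spec.2.1.symm
  · exact h.choose_spec.2

theorem bb_tw {a s : ℕ} (h : Tw I J a s) (hs : s ≠ a) (hy : Sy I J) :
    dat I J a s = dat I J a (bb I J a) := by
  classical
  have h1 : ∃ s, s ≠ a ∧ Tw I J a s := ⟨s, hs, h⟩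
  have h2 : bb I J a = h1.choose := by unfold bb; rw [dif_pos h1]
  have h3 : Tw I J a (bb I J a) := by rw [h2]; exact h1.choose_spec.2
  exact tw_uni (tw_trans hy (tw_symm h) h3) hs.symm (bb_ne a).symm

end

/-- A model together with multiplicities. -/
structure Tc (Φ : F2 L) where
  I : Interp L ℕ
  hI : I ∈ Md Φ
  sy : Sy I (subs Φ)
  pi : ℕ → ℕ
  hr : ∀ u, rep I (subs Φ) (pi u) = pi u
  hs : ∀ r, rep I (subs Φ) r = r → ∃ u, pi u = r
  hk : ∀ u w, u ≠ w → pi u = pi w → Nk I (subs Φ) (pi u)
  hn : ∀ u, Nk I (subs Φ) (pi u) → ∃ w, w ≠ u ∧ pi w = pi u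

namespace Tc

variable {Φ : F2 L} (C : Tc Φ)

open Classical in
/-- data -/
noncomputable def dl (u w : ℕ) : Dat L :=
  if u = w then dat C.I (subs Φ) (C.pi u) (C.pi u)
  else if C.pi u = C.pi w then dat C.I (subs Φ) (C.pi u) (bb C.I (subs Φ) (C.pi u))
  else dat C.I (subs Φ) (C.pi u) (C.pi w)

theorem dl_self (u : ℕ) : C.dl u u = dat C.I (subs Φ) (C.pi u) (C.pi u) := by
  unfold dl; rw [if_pos rfl]

theorem dl_in {u w : ℕ} (h : u ≠ w) (h' : C.pi u = C.pi w) :
    C.dl u w = dat C.I (subs Φ) (C.pi u) (bb C.I (subs Φ) (C.pi u)) := by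
  unfold dl; rw [if_neg h, if_pos h']

theorem dl_out {u w : ℕ} (h' : C.pi u ≠ C.pi w) :
    C.dl u w = dat C.I (subs Φ) (C.pi u) (C.pi w) := by
  unfold dl; rw [if_neg (fun h => h' (by rw [h])), if_neg h']

theorem dl_coh : Coh C.dl := by
  classical
  refine ⟨?_, ?_⟩
  · intro u w σ
    rcases bool_fun_cases σ with h2 | h2 | h2 | h2
    · subst h2
      simp only [pick_false]
      rw [dl_self]
      unfold dl
      split_ifs with h3 h4
      · rw [dat_map]; rfl
      · rw [dat_map]; rfl
      · rw [dat_map]; rfl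
    · subst h2
      simp only [pick_true]
      rw [dl_self]
      unfold dl
      split_ifs with h3 h4
      · subst h3; rw [dat_map]; rfl
      · rw [dat_map]
        simp only [pick_true]
        rw [bb_dat (C.hk u w h3 h4), h4]
      · rw [dat_map]; rfl
    · subst h2
      simp only [id, pick_false, pick_true]
      exact (Dat.map_id _).symm
    · subst h2
      simp only [Bool.not_false, Bool.not_true, pick_false, pick_true]
      by_cases h3 : u = w
      · subst h3
        rw [dl_self, dat_map]; rfl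
      · by_cases h4 : C.pi u = C.pi w
        · rw [C.dl_in (Ne.symm h3) h4.symm, C.dl_in h3 h4, ← h4, ← dat_not]
          exact C.sy _ _ (bb_dat (C.hk u w h3 h4)).symm
        · rw [C.dl_out (Ne.symm h4), C.dl_out h4, ← dat_not]
  · intro u w
    by_cases h3 : u = w
    · subst h3
      rw [dl_self]
      exact ⟨fun _ => rfl, fun _ => rfl⟩
    · by_cases h4 : C.pi u = C.pi w
      · rw [C.dl_in h3 h4]
        exact ⟨fun h => absurd h (bb_ne _).symm, fun h => absurd h h3⟩
      · rw [C.dl_out h4]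
        exact ⟨fun h => absurd h h4, fun h => absurd h h3⟩

theorem dl_al (u w : ℕ) : C.dl u w ∈ Al Φ := by
  unfold dl
  split_ifs
  · exact al_dat C.hI _ _
  · exact al_dat C.hI _ _
  · exact al_dat C.hI _ _

theorem dl_see (u z : ℕ) : ∃ w, C.dl u w = dat C.I (subs Φ) (C.pi u) z := by
  by_cases h : rep C.I (subs Φ) z = C.pi u
  · by_cases hz : z = C.pi u
    · exact ⟨u, by rw [dl_self, hz]⟩
    · have h1 : Tw C.I (subs Φ) (C.pi u) z := by
        rw [tw_iff_rep C.sy, C.hr, h]
      obtain ⟨w, hw, hw'⟩ := C.hn u (nk_of_tw h1 (Ne.symm hz))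
      exact ⟨w, by rw [C.dl_in hw.symm hw'.symm, bb_tw h1 hz C.sy]⟩
  · obtain ⟨w, hw⟩ := C.hs (rep C.I (subs Φ) z) (rep_rep C.sy z)
    refine ⟨w, ?_⟩
    rw [C.dl_out (by rw [hw]; exact Ne.symm h), hw]
    refine (tw_uni (tw_rep z) ?_ (Ne.symm h)).symm
    intro h'
    apply h
    rw [← h', C.hr]

/-- the model -/
noncomputable def Mo : Interp L ℕ := mkI C.dl

theorem Mo_both : lab C.Mo (subs Φ) = (fun u => (C.dl u u).l false) ∧ C.Mo ∈ Md Φ := by
  have hlb : ∀ u, (C.dl u u).l false = lab C.I (subs Φ) (C.pi u) := by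
    intro u
    rw [dl_self]; rfl
  refine criterion Φ C.Mo (fun u => (C.dl u u).l false) ?_ ?_
  · intro u w
    rw [Mo, mkd_mkI C.dl_coh]
    exact C.dl_al u w
  · intro u c ψ h
    rw [Mo]
    simp only [mkd_mkI C.dl_coh]
    rw [hlb] at h
    obtain ⟨hψ, h⟩ := h
    have hs : subs ψ ⊆ subs Φ := subs_trans hψ
    cases c
    · obtain ⟨z, hz⟩ := h
      obtain ⟨w, h2⟩ := C.dl_see u z
      refine ⟨w, ?_⟩
      simp only [cond_false]
      have h3 : C.dl w u = dat C.I (subs Φ) z (C.pi u) := by
        have h4 := C.dl_coh.map u w not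
        simp only [Bool.not_false, Bool.not_true, pick_false, pick_true] at h4
        rw [h4, h2, ← dat_not]
      rw [h3, ev_dat _ _ _ hs]
      exact hz
    · obtain ⟨z, hz⟩ := h
      obtain ⟨w, h2⟩ := C.dl_see u z
      refine ⟨w, ?_⟩
      simp only [cond_true]
      rw [h2, ev_dat _ _ _ hs]
      exact hz

theorem Mo_dat (u w : ℕ) : dat C.Mo (subs Φ) u w = C.dl u w := by
  unfold dat
  rw [C.Mo_both.1]
  exact mkd_mkI C.dl_coh u w

theorem Mo_infl : Infl C.Mo C.I C.pi := by
  refine ⟨fun u => ?_, fun u w h => ?_, fun c => ?_⟩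
  · apply Cf.pe_of_dat (S := subs Φ)
    rw [C.Mo_dat, dl_self]
  · apply Cf.pe_of_dat (S := subs Φ)
    rw [C.Mo_dat, C.dl_out h]
  · refine ⟨bb C.I (subs Φ) c, bb_ne c, fun u w => u < w, ⟨fun u _ => lt_irrefl u,
      fun u v w _ _ _ => lt_trans, fun u w _ _ h => lt_or_gt_of_ne h⟩, fun u w hu hw h => ?_⟩
    apply Cf.pe_of_dat (S := subs Φ)
    have h1 : u ≠ w := by
      have : u < w := h
      omega
    rw [C.Mo_dat, C.dl_in h1 (hu.trans hw.symm), hu]

theorem tw_iff (u w : ℕ) : Tw C.Mo (subs Φ) u w ↔ C.pi u = C.pi w := by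
  constructor
  · rintro ⟨h1, h2⟩
    simp only [C.Mo_dat] at h1 h2
    by_contra hne
    have huw : u ≠ w := fun h => hne (by rw [h])
    rw [dl_self, dl_self] at h1
    have hk1 : Nk C.I (subs Φ) (C.pi u) := ⟨C.pi w, Ne.symm hne, h1.symm⟩
    have hk2 : Nk C.I (subs Φ) (C.pi w) := ⟨C.pi u, hne, h1⟩
    obtain ⟨u', hu1, hu2⟩ := C.hn u hk1
    obtain ⟨w', hw1, hw2⟩ := C.hn w hk2
    have hu3 : u' ≠ w := fun h => hne (by rw [← hu2, h])
    have hw3 : w' ≠ u := fun h => hne (by rw [← hw2, h])
    have e1 : dat C.I (subs Φ) (C.pi u) (bb C.I (subs Φ) (C.pi u)) =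
        dat C.I (subs Φ) (C.pi w) (C.pi u) := by
      have := h2 u' hu1 hu3
      rw [C.dl_in hu1.symm hu2.symm, C.dl_out (by rw [hu2]; exact Ne.symm hne), hu2] at this
      exact this
    have e2 : dat C.I (subs Φ) (C.pi u) (C.pi w) =
        dat C.I (subs Φ) (C.pi w) (bb C.I (subs Φ) (C.pi w)) := by
      have := h2 w' hw3 hw1
      rw [C.dl_in hw1.symm hw2.symm, C.dl_out (by rw [hw2]; exact hne), hw2] at this
      exact this
    have key : Tw C.I (subs Φ) (C.pi u) (C.pi w) := by
      refine ⟨h1, fun z hz1 hz2 => ?_⟩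
      by_cases hr1 : rep C.I (subs Φ) z = C.pi u
      · have h3 : Tw C.I (subs Φ) (C.pi u) z := by rw [tw_iff_rep C.sy, C.hr, hr1]
        have h4 : dat C.I (subs Φ) (C.pi w) z = dat C.I (subs Φ) (C.pi w) (C.pi u) :=
          (tw_uni h3 (Ne.symm hne) (Ne.symm hz2)).symm
        rw [h4, bb_tw h3 hz1 C.sy, e1]
      · by_cases hr2 : rep C.I (subs Φ) z = C.pi w
        · have h3 : Tw C.I (subs Φ) (C.pi w) z := by rw [tw_iff_rep C.sy, C.hr, hr2]
          have h4 : dat C.I (subs Φ) (C.pi u) z = dat C.I (subs Φ) (C.pi u) (C.pi w) :=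
            (tw_uni h3 hne (Ne.symm hz1)).symm
          rw [h4, bb_tw h3 hz2 C.sy, e2]
        · obtain ⟨v, hv⟩ := C.hs (rep C.I (subs Φ) z) (rep_rep C.sy z)
          have h5 := h2 v (fun h => hr1 (by rw [← hv, h])) (fun h => hr2 (by rw [← hv, h]))
          rw [C.dl_out (by rw [hv]; exact Ne.symm hr1), C.dl_out (by rw [hv]; exact Ne.symm hr2),
            hv] at h5
          rw [tw_uni (tw_rep z) (Ne.symm hz1) (Ne.symm hr1),
            tw_uni (tw_rep z) (Ne.symm hz2) (Ne.symm hr2), h5]
    have := rep_eq C.sy key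
    rw [C.hr, C.hr] at this
    exact hne this
  · intro h
    by_cases huw : u = w
    · subst huw; exact tw_refl u
    refine ⟨?_, fun z hz1 hz2 => ?_⟩
    · rw [C.Mo_dat, C.Mo_dat, dl_self, dl_self, h]
    · rw [C.Mo_dat, C.Mo_dat]
      by_cases hz : C.pi u = C.pi z
      · rw [C.dl_in (Ne.symm hz1) hz, C.dl_in (Ne.symm hz2) (h.symm.trans hz), h]
      · rw [C.dl_out hz, C.dl_out (by rw [← h]; exact hz), h]

end Tc

/-! ### The family -/

/-- the invariant -/
def In (Φ : F2 L) (c : Code L) (k : ℕ) : Prop :=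
  ∃ u, ∃ s : Finset ℕ, s.card = k ∧ ∀ w, w ∈ s ↔ Tw (toI c) (subs Φ) u w

theorem Tw_iso {Φ : F2 L} {c c' : Code L} (g : ℕ ≃ ℕ)
    (hg : ∀ n (R : L.Relations n) (t : Fin n → ℕ), c ⟨n, R, t⟩ = c' ⟨n, R, fun k => g (t k)⟩)
    (u w : ℕ) : Tw (toI c) (subs Φ) u w ↔ Tw (toI c') (subs Φ) (g u) (g w) := by
  unfold Tw
  rw [dat_iso g hg, dat_iso g hg]
  refine and_congr Iff.rfl ?_
  constructor
  · intro h z h1 h2
    have := h (g.symm z) (fun h' => h1 (by rw [← h', Equiv.apply_symm_apply]))
      (fun h' => h2 (by rw [← h', Equiv.apply_symm_apply]))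
    rw [dat_iso g hg, dat_iso g hg, Equiv.apply_symm_apply] at this
    exact this
  · intro h z h1 h2
    rw [dat_iso g hg, dat_iso g hg]
    exact h (g z) (fun h' => h1 (g.injective h')) (fun h' => h2 (g.injective h'))

theorem In_iso {Φ : F2 L} {c c' : Code L} (h : Iso c c') {k : ℕ} (hk : In Φ c k) : In Φ c' k := by
  obtain ⟨g, hg⟩ := h
  obtain ⟨u, s, hs, h⟩ := hk
  refine ⟨g u, s.map g.toEmbedding, by rw [Finset.card_map, hs], fun w => ?_⟩
  rw [Finset.mem_map_equiv, h, Tw_iso g hg, Equiv.apply_symm_apply]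

section
variable {κ : Type}

/-- the elements of the new models -/
abbrev WW (κ : Type) : Type := κ ⊕ ((Σ m : ℕ, Fin (2 * m + 2)) ⊕ ℕ)

/-- the class of an element -/
def cls (x : ℕ → Bool) : WW κ → κ ⊕ ℕ
  | .inl k => .inl k
  | .inr (.inl p) => .inr p.1
  | .inr (.inr n) => .inr (if x n = true then 2 * n + 1 else 2 * n)

/-- the elements of the class `m` -/
def Fm (κ : Type) [DecidableEq κ] (x : ℕ → Bool) (m : ℕ) : Finset (WW κ) :=
  ((Finset.univ : Finset (Fin (2 * m + 2))).image fun i => .inr (.inl ⟨m, i⟩)) ∪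
    (if (m % 2 = 1 ↔ x (m / 2) = true) then {.inr (.inr (m / 2))} else ∅)

theorem mem_Fm [DecidableEq κ] (x : ℕ → Bool) (m : ℕ) (w : WW κ) :
    w ∈ Fm κ x m ↔ cls x w = .inr m := by
  unfold Fm
  rw [Finset.mem_union, Finset.mem_image]
  rcases w with k | ⟨m', i⟩ | n
  · simp only [cls]
    constructor
    · rintro (⟨i, -, h⟩ | h)
      · cases h
      · split_ifs at h
        · simp at h
        · simp at h
    · intro h; cases h
  · simp only [cls]
    constructor
    · rintro (⟨i, -, h⟩ | h)
      · cases h; rfl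
      · split_ifs at h
        · simp at h
        · simp at h
    · intro h
      have h' : m' = m := Sum.inr.inj h
      subst h'
      exact Or.inl ⟨i, Finset.mem_univ _, rfl⟩
  · simp only [cls]
    constructor
    · rintro (⟨i, -, h⟩ | h)
      · cases h
      · split_ifs at h with h1
        · rw [Finset.mem_singleton] at h
          have hn : n = m / 2 := Sum.inr.inj (Sum.inr.inj h)
          subst hn
          congr 1
          by_cases h2 : x (m / 2) = true
          · rw [if_pos h2]
            have := h1.2 h2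
            omega
          · rw [if_neg h2]
            have : ¬ m % 2 = 1 := fun h3 => h2 (h1.1 h3)
            omega
        · simp at h
    · intro h
      have h' := Sum.inr.inj h
      right
      by_cases h2 : x n = true
      · rw [if_pos h2] at h'
        have e : m / 2 = n := by omega
        have e2 : m % 2 = 1 := by omega
        rw [e, if_pos ⟨fun _ => h2, fun _ => e2⟩]
        simp
      · rw [if_neg h2] at h'
        have e : m / 2 = n := by omega
        have e2 : ¬ m % 2 = 1 := by omega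
        rw [e, if_pos ⟨fun h => absurd h e2, fun h => absurd h h2⟩]
        simp

theorem card_Fm [DecidableEq κ] (x : ℕ → Bool) (m : ℕ) :
    (Fm κ x m).card = 2 * m + 2 + (if (m % 2 = 1 ↔ x (m / 2) = true) then 1 else 0) := by
  unfold Fm
  rw [Finset.card_union_of_disjoint, Finset.card_image_of_injective, Finset.card_univ,
    Fintype.card_fin]
  · congr 1
    split_ifs <;> simp
  · intro i j h
    have := Sum.inl.inj (Sum.inr.inj h)
    simpa using this
  · rw [Finset.disjoint_left]
    intro w hw hw'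
    rw [Finset.mem_image] at hw
    obtain ⟨i, -, rfl⟩ := hw
    split_ifs at hw'
    · simp at hw'
    · simp at hw'

end

/-- Infinitely many classes of twins with companions give perfectly many models. -/
theorem perf_of_inf [∀ n, Countable (L.Relations n)] {Φ : F2 L} {C : Set (Code L)}
    (hcl : Closed C) {c0 : Code L} (hc0 : c0 ∈ K Φ C) (hsy : Sy (toI c0) (subs Φ))
    (hinf : {a | rep (toI c0) (subs Φ) a = a ∧ Nk (toI c0) (subs Φ) a}.Infinite) :
    PerfK (K Φ C) := by
  classical
  set I := toI c0 with hI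
  set J := subs Φ with hJ
  let A : Set ℕ := {a | rep I J a = a ∧ Nk I J a}
  have hA : Infinite A := hinf.to_subtype
  obtain ⟨α⟩ : Nonempty (ℕ ≃ A) := nonempty_equiv_of_countable
  let κ : Type := {k : ℕ // rep I J k = k ∧ ¬ Nk I J k}
  obtain ⟨e⟩ : Nonempty (ℕ ≃ WW κ) := nonempty_equiv_of_countable
  let val : κ ⊕ ℕ → ℕ := Sum.elim (fun k => k.1) fun m => (α m).1
  have hval : Function.Injective val := by
    rintro (k | m) (k' | m') h
    · exact congrArg _ (Subtype.ext h)
    · exact absurd (α m').2.2 (by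
        have h' : k.1 = (α m').1 := h
        rw [← h']; exact k.2.2)
    · exact absurd (α m).2.2 (by
        have h' : (α m).1 = k'.1 := h
        rw [h']; exact k'.2.2)
    · exact congrArg _ (α.injective (Subtype.ext h))
  let pi : (ℕ → Bool) → ℕ → ℕ := fun x u => val (cls x (e u))
  have hpi : ∀ x u w, pi x u = pi x w ↔ cls x (e u) = cls x (e w) := fun x u w =>
    ⟨fun h => hval h, fun h => congrArg val h⟩
  have hnk : ∀ x u, Nk I J (pi x u) ↔ ∃ m, cls x (e u) = .inr m := by
    intro x u
    show Nk I J (val (cls x (e u))) ↔ _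
    rcases cls x (e u) with k | m
    · exact ⟨fun h => absurd h k.2.2, fun ⟨m, h⟩ => by cases h⟩
    · exact ⟨fun _ => ⟨m, rfl⟩, fun _ => (α m).2.2⟩
  have hcard : ∀ (x : ℕ → Bool) m, 2 ≤ (Fm κ x m).card := by
    intro x m
    rw [card_Fm]
    omega
  let T : (ℕ → Bool) → Tc Φ := fun x =>
    { I := I
      hI := hc0.1
      sy := hsy
      pi := pi x
      hr := by
        intro u
        show rep I J (val (cls x (e u))) = val (cls x (e u))
        rcases cls x (e u) with k | m
        · exact k.2.1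
        · exact (α m).2.1
      hs := by
        intro r hr
        by_cases hk : Nk I J r
        · refine ⟨e.symm (.inr (.inl ⟨α.symm ⟨r, hr, hk⟩, 0⟩)), ?_⟩
          show val (cls x (e _)) = r
          rw [Equiv.apply_symm_apply]
          show (α (α.symm ⟨r, hr, hk⟩)).1 = r
          rw [Equiv.apply_symm_apply]
        · refine ⟨e.symm (.inl ⟨r, hr, hk⟩), ?_⟩
          show val (cls x (e _)) = r
          rw [Equiv.apply_symm_apply]
          rfl
      hk := by
        intro u w huw h
        rw [hnk]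
        have h1 := (hpi x u w).1 h
        rcases h2 : cls x (e u) with k | m
        · exfalso
          rw [h2] at h1
          have aux : ∀ (y : WW κ) (k : κ), cls x y = .inl k → y = .inl k := by
            rintro (k' | p | n) k h
            · exact congrArg _ (Sum.inl.inj h)
            · cases h
            · cases h
          have e1 := aux _ _ h2
          have e2 := aux _ _ h1.symm
          exact huw (e.injective (e1.trans e2.symm))
        · exact ⟨m, rfl⟩
      hn := by
        intro u h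
        obtain ⟨m, hm⟩ := (hnk x u).1 h
        have h1 : e u ∈ Fm κ x m := (mem_Fm x m _).2 hm
        obtain ⟨y, hy, hy2⟩ := Finset.exists_mem_ne (s := Fm κ x m) (by have := hcard x m; omega) (e u)
        refine ⟨e.symm y, fun h => hy2 (by rw [← h, Equiv.apply_symm_apply]), ?_⟩
        rw [hpi, Equiv.apply_symm_apply, hm]
        exact (mem_Fm x m _).1 hy }
  have hdep : ∀ u w, ∃ (F : Bool → Bool → Dat L) (i j : ℕ), ∀ x, (T x).dl u w = F (x i) (x j) := by
    have h1 : ∀ u, ∃ (G : Bool → ℕ) (i : ℕ), ∀ x, pi x u = G (x i) := by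
      intro u
      show ∃ (G : Bool → ℕ) (i : ℕ), ∀ x, val (cls x (e u)) = G (x i)
      rcases e u with k | p | n
      · exact ⟨fun _ => k.1, 0, fun _ => rfl⟩
      · exact ⟨fun _ => (α p.1).1, 0, fun _ => rfl⟩
      · exact ⟨fun β => (α (if β = true then 2 * n + 1 else 2 * n)).1, n, fun _ => rfl⟩
    intro u w
    obtain ⟨G, i, hG⟩ := h1 u
    obtain ⟨G', j, hG'⟩ := h1 w
    refine ⟨fun β γ => if u = w then dat I J (G β) (G β)
      else if G β = G' γ then dat I J (G β) (bb I J (G β)) else dat I J (G β) (G' γ), i, j,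
      fun x => ?_⟩
    show (if u = w then dat I J (pi x u) (pi x u) else if pi x u = pi x w then
      dat I J (pi x u) (bb I J (pi x u)) else dat I J (pi x u) (pi x w)) = _
    rw [hG, hG']
  have hcont : Continuous (fun x : ℕ → Bool => ofI ((T x).Mo)) :=
    cont_mkI (fun x => (T x).dl_coh) hdep
  have hin : ∀ x n, In Φ (ofI (T x).Mo) (4 * n + 5) ↔ x n = true := by
    intro x n
    unfold In
    simp only [toI_ofI, Tc.tw_iff]
    have hpi' : ∀ u w, (T x).pi u = (T x).pi w ↔ cls x (e u) = cls x (e w) := hpi x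
    simp only [hpi']
    constructor
    · rintro ⟨u, s, hs, h⟩
      rcases h2 : cls x (e u) with k | m
      · exfalso
        have h3 : s = {u} := by
          ext w
          rw [h, Finset.mem_singleton, h2]
          constructor
          · intro h4
            have aux : ∀ (y : WW κ) (k : κ), cls x y = .inl k → y = .inl k := by
              rintro (k' | p | n) k h
              · exact congrArg _ (Sum.inl.inj h)
              · cases h
              · cases h
            exact e.injective ((aux _ _ h4.symm).trans (aux _ _ h2).symm)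
          · rintro rfl; exact h2.symm
        rw [h3, Finset.card_singleton] at hs
        omega
      · have h3 : s = (Fm κ x m).map e.symm.toEmbedding := by
          ext w
          rw [h, Finset.mem_map_equiv, Equiv.symm_symm, mem_Fm, h2]
          exact eq_comm
        rw [h3, Finset.card_map, card_Fm] at hs
        split_ifs at hs with h4
        · have e1 : m = 2 * n + 1 := by omega
          have e2 : m / 2 = n := by omega
          rw [e2] at h4
          exact h4.1 (by omega)
        · omega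
    · intro hx
      refine ⟨e.symm (.inr (.inr n)), (Fm κ x (2 * n + 1)).map e.symm.toEmbedding, ?_,
        fun w => ?_⟩
      · have e1 : (2 * n + 1) / 2 = n := by omega
        have e2 : (2 * n + 1) % 2 = 1 := by omega
        rw [Finset.card_map, card_Fm, e1, if_pos ⟨fun _ => hx, fun _ => e2⟩]
        omega
      · rw [Finset.mem_map_equiv, Equiv.symm_symm, mem_Fm, Equiv.apply_symm_apply]
        have : cls (κ := κ) x (.inr (.inr n)) = .inr (2 * n + 1) := by
          show Sum.inr (if x n = true then 2 * n + 1 else 2 * n) = _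
          rw [if_pos hx]
        rw [this]
        exact eq_comm
  refine ⟨fun x => ofI ((T x).Mo), hcont, fun x => ⟨?_, ?_⟩, fun x x' h => ?_⟩
  · rw [toI_ofI]; exact (T x).Mo_both.2
  · refine hcl c0 hc0.2 _ (T x).pi ?_
    rw [toI_ofI]
    exact (T x).Mo_infl
  · funext n
    rw [Bool.eq_iff_iff, ← hin x n, ← hin x' n]
    exact ⟨In_iso h, In_iso (iso_symm h)⟩

end Pool.Agent.K7.H41.TV
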